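import Pool.Agent.R721.SC.Main

set_option autoImplicit false

namespace Pool.Agent.R721.TC

/-- permutations of odd order -/
def OddP {X : Type} (f : Equiv.Perm X) : Prop := ∃ n, Odd n ∧ f ^ n = 1

theorem fix_of_sq {X : Type} {f : Equiv.Perm X} (hf : OddP f) {x : X} (h : f (f x) = x) :
    f x = x := by
  obtain ⟨n, ⟨k, rfl⟩, hn⟩ := hf
  have h1 : ∀ k : ℕ, (f ^ (2 * k)) x = x := by
    intro k
    induction k with
    | zero => simp
    | succ k ih =>
        rw [show 2 * (k + 1) = 2 * k + 2 by ring, pow_add, Equiv.Perm.mul_apply, pow_two,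
          Equiv.Perm.mul_apply, h, ih]
  have h2 : (f ^ (2 * k + 1)) x = x := by rw [hn]; rfl
  rw [pow_succ', Equiv.Perm.mul_apply, h1] at h2
  exact h2

theorem perm3_0 : ∀ f g : Equiv.Perm (Fin 0), f ^ 3 = 1 → g ^ 3 = 1 → f * g = g * f := by decide
theorem perm3_1 : ∀ f g : Equiv.Perm (Fin 1), f ^ 3 = 1 → g ^ 3 = 1 → f * g = g * f := by decide
theorem perm3_2 : ∀ f g : Equiv.Perm (Fin 2), f ^ 3 = 1 → g ^ 3 = 1 → f * g = g * f := by decide
theorem perm3_3 : ∀ f g : Equiv.Perm (Fin 3), f ^ 3 = 1 → g ^ 3 = 1 → f * g = g * f := by decide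

theorem perm3 (m : ℕ) (hm : m ≤ 3) :
    ∀ f g : Equiv.Perm (Fin m), f ^ 3 = 1 → g ^ 3 = 1 → f * g = g * f := by
  interval_cases m
  · exact perm3_0
  · exact perm3_1
  · exact perm3_2
  · exact perm3_3

theorem cube_of_odd {Y : Type} [Finite Y] (hY : Nat.card Y ≤ 3) (f : Equiv.Perm Y)
    (hf : OddP f) : f ^ 3 = 1 := by
  obtain ⟨n, hn, hfn⟩ := hf
  have h6 : Nat.card (Equiv.Perm Y) ∣ 2 * 3 := by
    rw [Nat.card_perm]
    interval_cases h : Nat.card Y <;> decide
  have h1 : orderOf f ∣ 2 * 3 := (orderOf_dvd_natCard f).trans h6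
  have h2 : orderOf f ∣ n := orderOf_dvd_of_pow_eq_one hfn
  have h3 : Nat.Coprime (orderOf f) 2 := by
    rw [Nat.coprime_two_right]
    exact Odd.of_dvd_nat hn h2
  exact orderOf_dvd_iff_pow_eq_one.1 (h3.dvd_of_dvd_mul_left h1)

/-- permutations of odd order of a set with at most three elements commute -/
theorem comm_small {Y : Type} [Finite Y] (hY : Nat.card Y ≤ 3) (f g : Equiv.Perm Y)
    (hf : OddP f) (hg : OddP g) : f * g = g * f := by
  obtain ⟨e⟩ : Nonempty (Y ≃ Fin (Nat.card Y)) := ⟨Finite.equivFin Y⟩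
  have hf3 := cube_of_odd hY f hf
  have hg3 := cube_of_odd hY g hg
  have key := perm3 _ hY (e.permCongrHom f) (e.permCongrHom g)
    (by rw [← map_pow, hf3, map_one]) (by rw [← map_pow, hg3, map_one])
  rw [← map_mul, ← map_mul] at key
  exact e.permCongrHom.injective key

theorem oddP_subtype {X : Type} {T : Set X} (f : Equiv.Perm X) (hf : OddP f)
    (h : ∀ x, f x ∈ T ↔ x ∈ T) : OddP (f.subtypePerm h : Equiv.Perm {x // x ∈ T}) := by
  obtain ⟨n, hn, hfn⟩ := hf
  refine ⟨n, hn, ?_⟩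
  rw [Equiv.Perm.subtypePerm_pow]
  ext x
  simp [hfn]

theorem comm_of_small {X : Type} {T : Set X} [Finite T] (hT : Nat.card T ≤ 3)
    (f g : Equiv.Perm X) (hf : OddP f) (hg : OddP g) (hfT : ∀ x, f x ∈ T ↔ x ∈ T)
    (hgT : ∀ x, g x ∈ T ↔ x ∈ T) : ∀ x ∈ T, f (g x) = g (f x) := by
  intro x hx
  have h1 := comm_small (Y := {x // x ∈ T}) hT _ _ (oddP_subtype f hf hfT)
    (oddP_subtype g hg hgT)
  have h2 := congrArg (fun k : Equiv.Perm {x // x ∈ T} => ((k ⟨x, hx⟩ : {x // x ∈ T}) : X)) h1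
  exact h2

/-- affine maps -/
def Aff {V W : Type} [AddCommGroup V] [AddCommGroup W] (f : V → W) : Prop :=
  ∀ x y z, f (x - y + z) = f x - f y + f z

/-- subsets whose stabiliser has commuting elements of odd order -/
def OC {V : Type} [AddCommGroup V] (R : Set V) : Prop :=
  ∀ f g : Equiv.Perm V, Aff f → Aff g → OddP f → OddP g → (∀ v, f v ∈ R ↔ v ∈ R) →
    (∀ v, g v ∈ R ↔ v ∈ R) → ∀ v, f (g v) = g (f v)

theorem OC.compl {V : Type} [AddCommGroup V] {R : Set V} (h : OC R) : OC Rᶜ := by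
  intro f g hf hg hfo hgo hfR hgR
  refine h f g hf hg hfo hgo (fun v => ?_) (fun v => ?_)
  · have := hfR v
    simp only [Set.mem_compl_iff] at this
    exact not_iff_not.1 this
  · have := hgR v
    simp only [Set.mem_compl_iff] at this
    exact not_iff_not.1 this

/-- transport -/
theorem OC.comap {V W : Type} [AddCommGroup V] [AddCommGroup W] (L : V ≃+ W) {R : Set W}
    (h : OC R) : OC (L ⁻¹' R) := by
  have key : ∀ f : Equiv.Perm V, Aff f → OddP f → (∀ v, f v ∈ L ⁻¹' R ↔ v ∈ L ⁻¹' R) →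
      Aff (L.toEquiv.permCongrHom f) ∧ OddP (L.toEquiv.permCongrHom f) ∧
      (∀ v, L.toEquiv.permCongrHom f v ∈ R ↔ v ∈ R) := by
    intro f hf ho hR
    have e1 : ∀ w, L.toEquiv.permCongrHom f w = L (f (L.symm w)) := fun w => rfl
    refine ⟨?_, ?_, ?_⟩
    · intro x y z
      rw [e1, e1, e1, e1, map_add, map_sub, hf, map_add, map_sub]
    · obtain ⟨n, hn, hfn⟩ := ho
      exact ⟨n, hn, by rw [← map_pow, hfn, map_one]⟩
    · intro w
      rw [e1]
      have := hR (L.symm w)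
      simp only [Set.mem_preimage, L.apply_symm_apply] at this
      exact this
  intro f g hf hg hfo hgo hfR hgR v
  obtain ⟨a1, a2, a3⟩ := key f hf hfo hfR
  obtain ⟨b1, b2, b3⟩ := key g hg hgo hgR
  have h1 := h _ _ a1 b1 a2 b2 a3 b3 (L v)
  have e1 : ∀ (f : Equiv.Perm V) w, L.toEquiv.permCongrHom f w = L (f (L.symm w)) :=
    fun f w => rfl
  rw [e1, e1, e1, e1, L.symm_apply_apply, L.symm_apply_apply, L.symm_apply_apply] at h1
  exact L.injective h1

theorem card_comap {V W : Type} [AddCommGroup V] [AddCommGroup W] (L : V ≃+ W) (R : Set W) :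
    (L ⁻¹' R).ncard = R.ncard := by
  rw [← Nat.card_coe_set_eq, ← Nat.card_coe_set_eq]
  exact Nat.card_congr (L.toEquiv.subtypeEquiv (fun v => Iff.rfl))

/-- an affine functional vanishing on all but at most one point of `R` vanishes -/
def Rob (p : ℕ) {V : Type} [AddCommGroup V] (R : Set V) : Prop :=
  ∀ (x : V) (α : V →+ ZMod p) (t : ZMod p), (∀ v ∈ R, v ≠ x → α v + t = 0) → α = 0 ∧ t = 0

/-- a nonzero affine functional has few zeros -/
theorem zero_of_card (p : ℕ) [Fact p.Prime] {V : Type} [AddCommGroup V] [Finite V]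
    (A : Set V) (hA : Nat.card V < p * A.ncard) (α : V →+ ZMod p) (t : ZMod p)
    (h : ∀ v ∈ A, α v + t = 0) : α = 0 ∧ t = 0 := by
  have hp : p ≠ 0 := (Fact.out : p.Prime).ne_zero
  have : NeZero p := ⟨hp⟩
  have hα : α = 0 := by
    by_contra hne
    obtain ⟨u, hu⟩ : ∃ u, α u ≠ 0 := by
      by_contra hcon
      push Not at hcon
      exact hne (AddMonoidHom.ext hcon)
    have hinj : Function.Injective (fun w : A × Fin p => (w.1 : V) + (w.2 : ℕ) • u) := by
      rintro ⟨⟨a, ha⟩, i⟩ ⟨⟨b, hb⟩, j⟩ hab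
      have hab' : a + (i : ℕ) • u = b + (j : ℕ) • u := hab
      have h1 := congrArg α hab'
      rw [map_add, map_add, map_nsmul, map_nsmul, eq_neg_of_add_eq_zero_left (h a ha),
        eq_neg_of_add_eq_zero_left (h b hb), add_right_inj, nsmul_eq_mul, nsmul_eq_mul] at h1
      have h2 := mul_right_cancel₀ hu h1
      have h3 : i = j := by
        apply Fin.ext
        have h4 := (ZMod.natCast_eq_natCast_iff' _ _ _).1 h2
        rwa [Nat.mod_eq_of_lt i.isLt, Nat.mod_eq_of_lt j.isLt] at h4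
      subst h3
      have h5 : a = b := add_right_cancel hab'
      subst h5
      rfl
    have h6 := Nat.card_le_card_of_injective _ hinj
    rw [Nat.card_prod, Nat.card_coe_set_eq, Nat.card_fin, mul_comm] at h6
    omega
  refine ⟨hα, ?_⟩
  have hne : A.Nonempty := by
    rw [Set.nonempty_iff_ne_empty]
    intro h0
    rw [h0, Set.ncard_empty, mul_zero] at hA
    omega
  obtain ⟨v, hv⟩ := hne
  have := h v hv
  rwa [hα, AddMonoidHom.zero_apply, zero_add] at this

theorem rob_of_card (p : ℕ) [Fact p.Prime] {V : Type} [AddCommGroup V] [Finite V]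
    (R : Set V) (hR : Nat.card V < p * (R.ncard - 1)) : Rob p R := by
  intro x α t h
  apply zero_of_card p (R \ {x})
  · refine lt_of_lt_of_le hR (Nat.mul_le_mul_left p ?_)
    have := Set.ncard_sdiff_singleton_le R x
    have h2 : R.ncard ≤ (R \ {x}).ncard + 1 := by
      by_cases hx : x ∈ R
      · rw [Set.ncard_sdiff_singleton_add_one hx]
      · rw [Set.sdiff_singleton_eq_self hx]
        omega
    omega
  · rintro v ⟨hv, hvx⟩
    exact h v hv hvx

/-- the pointed layer -/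
def ext (p : ℕ) {V : Type} [AddCommGroup V] (R : Set V) : Set (V × ZMod p) :=
  {w | (w.2 = 0 ∧ w.1 ∈ R) ∨ w = (0, 1)}ᶜ

theorem ncard_ext (p : ℕ) [Fact p.Prime] {V : Type} [AddCommGroup V] [Finite V] (R : Set V) :
    (ext p R).ncard + (R.ncard + 1) = p * Nat.card V := by
  have hp : p ≠ 0 := (Fact.out : p.Prime).ne_zero
  have : NeZero p := ⟨hp⟩
  have h1 : ({w | (w.2 = 0 ∧ w.1 ∈ R) ∨ w = (0, 1)} : Set (V × ZMod p)).ncard
      = R.ncard + 1 := by
    have e1 : ({w | (w.2 = 0 ∧ w.1 ∈ R) ∨ w = (0, 1)} : Set (V × ZMod p))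
        = (fun v => (v, (0 : ZMod p))) '' R ∪ {(0, 1)} := by
      ext ⟨v, k⟩
      simp only [Set.mem_ofPred_eq, Set.mem_union, Set.mem_image, Set.mem_singleton_iff,
        Prod.mk.injEq]
      constructor
      · rintro (⟨h1, h2⟩ | h1)
        · exact Or.inl ⟨v, h2, rfl, h1.symm⟩
        · exact Or.inr h1
      · rintro (⟨a, ha, rfl, rfl⟩ | h1)
        · exact Or.inl ⟨rfl, ha⟩
        · exact Or.inr h1
    rw [e1, Set.ncard_union_eq, Set.ncard_image_of_injective, Set.ncard_singleton]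
    · intro a b hab
      exact congrArg Prod.fst hab
    · rw [Set.disjoint_singleton_right]
      rintro ⟨a, -, ha⟩
      exact one_ne_zero (congrArg Prod.snd ha).symm
  have h2 := Set.ncard_add_ncard_compl
    ({w | (w.2 = 0 ∧ w.1 ∈ R) ∨ w = (0, 1)} : Set (V × ZMod p))
  rw [h1, Nat.card_prod, Nat.card_zmod] at h2
  show ({w | (w.2 = 0 ∧ w.1 ∈ R) ∨ w = (0, 1)} : Set (V × ZMod p))ᶜ.ncard + _ = _
  rw [add_comm, h2, mul_comm]

/-- two affine maps agreeing on the zero layer and at one further point -/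
theorem aff_ext_layer {p : ℕ} [Fact p.Prime] {V W : Type} [AddCommGroup V] [AddCommGroup W]
    {F G : V × ZMod p → W} (hF : Aff F) (hG : Aff G) (h0 : ∀ v, F (v, 0) = G (v, 0))
    (h1 : F (0, 1) = G (0, 1)) (w : V × ZMod p) : F w = G w := by
  have hp : p ≠ 0 := (Fact.out : p.Prime).ne_zero
  have : NeZero p := ⟨hp⟩
  obtain ⟨v, k⟩ := w
  have key : ∀ n : ℕ, F (v, (n : ZMod p)) = G (v, (n : ZMod p)) := by
    intro n
    induction n with
    | zero => rw [Nat.cast_zero]; exact h0 v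
    | succ n ih =>
        have e1 : ((v, ((n + 1 : ℕ) : ZMod p)) : V × ZMod p)
            = (v, (n : ZMod p)) - (0, 0) + (0, 1) := by
          simp
        rw [e1, hF, hG, ih, h0 0, h1]
  have := key k.val
  rwa [ZMod.natCast_zmod_val] at this

theorem Aff.comp {U V W : Type} [AddCommGroup U] [AddCommGroup V] [AddCommGroup W]
    {f : V → W} {g : U → V} (hf : Aff f) (hg : Aff g) : Aff (fun u => f (g u)) := by
  intro x y z
  show f (g _) = _
  rw [hg, hf]

theorem ext_oc {p : ℕ} [Fact p.Prime] {V : Type} [AddCommGroup V] [Finite V] {R : Set V}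
    (h : OC R) (hR : Rob p R) : OC (ext p R) := by
  have key : ∀ f : Equiv.Perm (V × ZMod p), Aff f → (∀ v, f v ∈ ext p R ↔ v ∈ ext p R) →
      f (0, 1) = (0, 1) ∧ ∀ v, (f (v, 0)).2 = 0 := by
    intro f hf hfR
    have hC : ∀ w, ((f w).2 = 0 ∧ (f w).1 ∈ R ∨ f w = (0, 1)) ↔
        (w.2 = 0 ∧ w.1 ∈ R ∨ w = (0, 1)) := by
      intro w
      have := hfR w
      simp only [ext, Set.mem_compl_iff, Set.mem_ofPred_eq] at this
      exact not_iff_not.1 this
    set d0 := f.symm (0, 1) with hd0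
    have hfd0 : f d0 = (0, 1) := f.apply_symm_apply _
    have hd0C := (hC d0).1 (Or.inr hfd0)
    let α : V →+ ZMod p :=
      { toFun := fun v => (f (v, 0)).2 - (f (0, 0)).2
        map_zero' := sub_self _
        map_add' := by
          intro a b
          have e1 : ((a + b, 0) : V × ZMod p) = (a, 0) - (0, 0) + (b, 0) := by simp
          rw [e1, hf]
          simp only [Prod.snd_add, Prod.snd_sub]
          ring }
    obtain ⟨h1, h2⟩ := hR d0.1 α (f (0, 0)).2 (by
      intro v hv hvd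
      show (f (v, 0)).2 - (f (0, 0)).2 + (f (0, 0)).2 = 0
      rw [sub_add_cancel]
      rcases (hC (v, 0)).2 (Or.inl ⟨rfl, hv⟩) with h3 | h3
      · exact h3.1
      · exfalso
        apply hvd
        have h4 : (v, (0 : ZMod p)) = d0 := by
          apply f.injective
          rw [h3, hfd0]
        rw [← h4])
    have h3 : ∀ v, (f (v, 0)).2 = 0 := by
      intro v
      have h4 : (f (v, 0)).2 - (f (0, 0)).2 = 0 := DFunLike.congr_fun h1 v
      rw [h2, sub_zero] at h4
      exact h4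
    refine ⟨?_, h3⟩
    rcases hd0C with ⟨h4, h5⟩ | h4
    · exfalso
      have h6 := h3 d0.1
      have h7 : ((d0.1, 0) : V × ZMod p) = d0 := Prod.ext rfl h4.symm
      rw [h7, hfd0] at h6
      exact one_ne_zero h6
    · rw [← h4]
      rw [hfd0, h4]
  have key2 : ∀ f : Equiv.Perm (V × ZMod p), Aff f → OddP f →
      (∀ v, f v ∈ ext p R ↔ v ∈ ext p R) →
      ∃ g : Equiv.Perm V, Aff g ∧ OddP g ∧ (∀ v, g v ∈ R ↔ v ∈ R) ∧
        ∀ v, f (v, 0) = (g v, 0) := by
    intro f hf hfo hfR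
    obtain ⟨h1, h2⟩ := key f hf hfR
    have hinj : Function.Injective (fun v : V => (f (v, 0)).1) := by
      intro a b hab
      have h3 : f (a, 0) = f (b, 0) := Prod.ext hab ((h2 a).trans (h2 b).symm)
      exact congrArg Prod.fst (f.injective h3)
    let g : Equiv.Perm V := Equiv.ofBijective _ (Finite.injective_iff_bijective.1 hinj)
    have hg : ∀ v, g v = (f (v, 0)).1 := fun v => rfl
    have hfg : ∀ v, f (v, 0) = (g v, 0) := fun v => Prod.ext (hg v).symm (h2 v)
    refine ⟨g, ?_, ?_, ?_, hfg⟩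
    · intro x y z
      have e1 : ((x - y + z, 0) : V × ZMod p) = (x, 0) - (y, 0) + (z, 0) := by simp
      rw [hg, e1, hf, hg, hg, hg]
      rfl
    · obtain ⟨n, hn, hfn⟩ := hfo
      refine ⟨n, hn, ?_⟩
      have h3 : ∀ m : ℕ, ∀ v, (f ^ m) (v, 0) = ((g ^ m) v, 0) := by
        intro m
        induction m with
        | zero => intro v; simp
        | succ m ih =>
            intro v
            rw [pow_succ, pow_succ, Equiv.Perm.mul_apply, Equiv.Perm.mul_apply, hfg, ih]
      ext v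
      have h4 := h3 n v
      rw [hfn] at h4
      exact (congrArg Prod.fst h4).symm
    · intro v
      have h3 := hfR (v, 0)
      simp only [ext, Set.mem_compl_iff, Set.mem_ofPred_eq] at h3
      have h4 := not_iff_not.1 h3
      rw [hfg] at h4
      have h5 : ∀ a : V, ((a, (0 : ZMod p)) = (0, 1)) ↔ False := by
        intro a
        constructor
        · intro h6
          exact one_ne_zero (congrArg Prod.snd h6).symm
        · exact False.elim
      simpa [h5] using h4
  intro f g hf hg hfo hgo hfR hgR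
  obtain ⟨f1, -⟩ := key f hf hfR
  obtain ⟨g1, -⟩ := key g hg hgR
  obtain ⟨F, hF1, hF2, hF3, hF4⟩ := key2 f hf hfo hfR
  obtain ⟨G, hG1, hG2, hG3, hG4⟩ := key2 g hg hgo hgR
  have hc := h F G hF1 hG1 hF2 hG2 hF3 hG3
  apply aff_ext_layer (hf.comp hg) (hg.comp hf)
  · intro v
    rw [hG4, hF4, hF4, hG4, hc]
  · show f (g (0, 1)) = g (f (0, 1))
    rw [f1, g1, f1]

/-- the inductive invariant -/
def Inv (p : ℕ) {V : Type} [AddCommGroup V] (R : Set V) : Prop :=
  OC R ∧ Nat.card V < 2 * R.ncard ∧ R.ncard < Nat.card V ∧ 3 ≤ R.ncard ∧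
    (p = 2 → Nat.card V + 3 ≤ 2 * R.ncard ∧ R.ncard + 3 ≤ Nat.card V)

theorem Inv.rob {p : ℕ} [hp : Fact p.Prime] {V : Type} [AddCommGroup V] [Finite V] {R : Set V}
    (h : Inv p R) : Rob p R := by
  obtain ⟨-, h1, h2, h3, h4⟩ := h
  apply rob_of_card
  by_cases hp2 : p = 2
  · subst hp2
    obtain ⟨h5, h6⟩ := h4 rfl
    omega
  · have : 3 ≤ p := by
      have := hp.out.two_le
      omega
    obtain ⟨r, hr⟩ : ∃ r, R.ncard = r + 3 := ⟨R.ncard - 3, by omega⟩
    rw [hr] at h1 ⊢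
    have h7 : 3 * (r + 3 - 1) ≤ p * (r + 3 - 1) := Nat.mul_le_mul_right _ this
    omega

theorem Inv.ext {p : ℕ} [hp : Fact p.Prime] {V : Type} [AddCommGroup V] [Finite V] {R : Set V}
    (h : Inv p R) : Inv p (ext p R) := by
  have hrob := h.rob
  obtain ⟨h0, h1, h2, h3, h4⟩ := h
  have hc := ncard_ext p R
  have hn : Nat.card (V × ZMod p) = p * Nat.card V := by
    rw [Nat.card_prod, Nat.card_zmod, mul_comm]
  refine ⟨ext_oc h0 hrob, ?_⟩
  rw [hn]
  by_cases hp2 : p = 2
  · subst hp2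
    obtain ⟨h5, h6⟩ := h4 rfl
    refine ⟨by omega, by omega, by omega, fun _ => ⟨by omega, by omega⟩⟩
  · have : 3 ≤ p := by
      have := hp.out.two_le
      omega
    have h7 : 3 * Nat.card V ≤ p * Nat.card V := Nat.mul_le_mul_right _ this
    refine ⟨by omega, by omega, by omega, fun h => absurd h hp2⟩

theorem Inv.comap {p : ℕ} {V W : Type} [AddCommGroup V] [AddCommGroup W] (L : V ≃+ W)
    {R : Set W} (h : Inv p R) : Inv p (L ⁻¹' R) := by
  obtain ⟨h0, h1, h2, h3, h4⟩ := h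
  have hn : Nat.card V = Nat.card W := Nat.card_congr L.toEquiv
  refine ⟨h0.comap L, ?_⟩
  rw [card_comap, hn]
  exact ⟨h1, h2, h3, h4⟩

/-- a pair of invariant sets of different sizes -/
def Pair (p : ℕ) (V : Type) [AddCommGroup V] : Prop :=
  ∃ R R' : Set V, Inv p R ∧ Inv p R' ∧ R.ncard ≠ R'.ncard

theorem Pair.ext {p : ℕ} [hp : Fact p.Prime] {V : Type} [AddCommGroup V] [Finite V]
    (h : Pair p V) : Pair p (V × ZMod p) := by
  obtain ⟨R, R', h1, h2, h3⟩ := h
  refine ⟨_, _, h1.ext, h2.ext, ?_⟩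
  have a1 := ncard_ext p R
  have a2 := ncard_ext p R'
  omega

theorem Pair.comap {p : ℕ} {V W : Type} [AddCommGroup V] [AddCommGroup W] (L : V ≃+ W)
    (h : Pair p W) : Pair p V := by
  obtain ⟨R, R', h1, h2, h3⟩ := h
  refine ⟨_, _, h1.comap L, h2.comap L, ?_⟩
  rw [card_comap, card_comap]
  exact h3

/-- three sets of different sizes -/
def Good3 (V : Type) [AddCommGroup V] : Prop :=
  ∃ R : Fin 3 → Set V, Function.Injective (fun i => (R i).ncard) ∧ ∀ i, OC (R i)

theorem Good3.of {V : Type} [AddCommGroup V] (R0 R1 R2 : Set V) (h0 : OC R0) (h1 : OC R1)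
    (h2 : OC R2) (h01 : R0.ncard ≠ R1.ncard) (h02 : R0.ncard ≠ R2.ncard)
    (h12 : R1.ncard ≠ R2.ncard) : Good3 V := by
  refine ⟨![R0, R1, R2], ?_, ?_⟩
  · intro i j hij
    fin_cases i <;> fin_cases j <;> first | rfl | (exfalso; revert hij; simp; tauto)
  · intro i
    fin_cases i
    · exact h0
    · exact h1
    · exact h2

theorem Good3.comap {V W : Type} [AddCommGroup V] [AddCommGroup W] (L : V ≃+ W)
    (h : Good3 W) : Good3 V := by
  obtain ⟨R, h1, h2⟩ := h
  refine ⟨fun i => L ⁻¹' R i, ?_, fun i => (h2 i).comap L⟩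
  intro i j hij
  simp only [card_comap] at hij
  exact h1 hij

theorem Pair.good3 {p : ℕ} {V : Type} [AddCommGroup V] [Finite V] (h : Pair p V) : Good3 V := by
  obtain ⟨R, R', h1, h2, h3⟩ := h
  have a1 := Set.ncard_add_ncard_compl R
  obtain ⟨b0, b1, -⟩ := h1
  obtain ⟨c0, c1, -⟩ := h2
  exact Good3.of R Rᶜ R' b0 b0.compl c0 (by omega) h3 (by omega)

/-- iterate the pointed layer -/
theorem pair_iter (p : ℕ) [hp : Fact p.Prime] (d0 : ℕ) (h0 : Pair p (Fin d0 → ZMod p)) :
    ∀ n : ℕ, Pair p (Fin (d0 + n) → ZMod p) := by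
  intro n
  induction n with
  | zero => exact h0
  | succ n ih =>
      have h1 := ih.ext
      have L : (Fin (d0 + (n + 1)) → ZMod p) ≃ₗ[ZMod p] (Fin (d0 + n) → ZMod p) × ZMod p := by
        apply LinearEquiv.ofFinrankEq
        simp
        ring
      exact h1.comap L.toAddEquiv

end Pool.Agent.R721.TC
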