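import Pool.Agent.R721.TC.Base

set_option autoImplicit false

namespace Pool.Agent.R721.TC

theorem aff_ext_zmod {p : ℕ} [Fact p.Prime] {W : Type} [AddCommGroup W]
    {F G : ZMod p → W} (hF : Aff F) (hG : Aff G) (h0 : F 0 = G 0) (h1 : F 1 = G 1)
    (w : ZMod p) : F w = G w := by
  have hp : p ≠ 0 := (Fact.out : p.Prime).ne_zero
  have : NeZero p := ⟨hp⟩
  have key : ∀ n : ℕ, F (n : ZMod p) = G (n : ZMod p) := by
    intro n
    induction n with
    | zero => rw [Nat.cast_zero]; exact h0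
    | succ n ih =>
        have e1 : ((n + 1 : ℕ) : ZMod p) = (n : ZMod p) - 0 + 1 := by simp
        rw [e1, hF, hG, ih, h0, h1]
  have := key w.val
  rwa [ZMod.natCast_zmod_val] at this

/-- an odd-order permutation preserving a set of two points fixes them -/
theorem fix_pair {X : Type} {f : Equiv.Perm X} (hf : OddP f) {a b : X} (hab : a ≠ b)
    (h : ∀ x, f x ∈ ({a, b} : Set X) ↔ x ∈ ({a, b} : Set X)) : f a = a ∧ f b = b := by
  have ha : f a = a ∨ f a = b := (h a).2 (Or.inl rfl)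
  have hb : f b = a ∨ f b = b := (h b).2 (Or.inr rfl)
  have key : f a = a := by
    rcases ha with h1 | h1
    · exact h1
    · rcases hb with h2 | h2
      · exact fix_of_sq hf (by rw [h1, h2])
      · exact absurd (f.injective (h1.trans h2.symm)) hab
  refine ⟨key, ?_⟩
  rcases hb with h2 | h2
  · exact absurd (f.injective (key.trans h2.symm)) hab
  · exact h2

theorem compl_iff {X : Type} {f : Equiv.Perm X} {T : Set X}
    (h : ∀ x, f x ∈ Tᶜ ↔ x ∈ Tᶜ) : ∀ x, f x ∈ T ↔ x ∈ T := by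
  intro x
  have := h x
  simp only [Set.mem_compl_iff] at this
  exact not_iff_not.1 this

section five

variable {p : ℕ} [hp : Fact p.Prime]

theorem aff_zmod {f : ZMod p → ZMod p} (hf : Aff f) (h0 : f 0 = 0) (x : ZMod p) :
    f x = x * f 1 := by
  apply aff_ext_zmod hf (G := fun x => x * f 1)
  · intro x y z
    show (x - y + z) * f 1 = x * f 1 - y * f 1 + z * f 1
    ring
  · simp [h0]
  · simp

theorem oc_point : OC (({0} : Set (ZMod p))ᶜ) := by
  intro f g hf hg hfo hgo hfR hgR v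
  have h1 : f 0 = 0 := (compl_iff hfR 0).2 rfl
  have h2 : g 0 = 0 := (compl_iff hgR 0).2 rfl
  have a1 := fun x => aff_zmod hf h1 x
  have a2 := fun x => aff_zmod hg h2 x
  rw [a1 (g v), a2 v, a2 (f v), a1 v]
  ring

theorem oc_pair : OC (({0, 1} : Set (ZMod p))ᶜ) := by
  intro f g hf hg hfo hgo hfR hgR v
  obtain ⟨h1, h1'⟩ := fix_pair hfo (zero_ne_one) (compl_iff hfR)
  obtain ⟨h2, h2'⟩ := fix_pair hgo (zero_ne_one) (compl_iff hgR)
  have a1 := fun x => aff_zmod hf h1 x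
  have a2 := fun x => aff_zmod hg h2 x
  rw [a1 (g v), a2 v, a2 (f v), a1 v]
  ring

theorem pair_five (h5 : 5 ≤ p) : Pair p (ZMod p) := by
  have : NeZero p := ⟨by omega⟩
  have hc : Nat.card (ZMod p) = p := Nat.card_zmod p
  have n1 : (({0} : Set (ZMod p))ᶜ).ncard = p - 1 := by
    have := Set.ncard_add_ncard_compl ({0} : Set (ZMod p))
    rw [Set.ncard_singleton, hc] at this
    omega
  have n2 : (({0, 1} : Set (ZMod p))ᶜ).ncard = p - 2 := by
    have := Set.ncard_add_ncard_compl ({0, 1} : Set (ZMod p))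
    rw [Set.ncard_pair zero_ne_one, hc] at this
    omega
  refine ⟨_, _, ⟨oc_point, ?_⟩, ⟨oc_pair, ?_⟩, ?_⟩
  · rw [n1, hc]
    refine ⟨by omega, by omega, by omega, fun h => by omega⟩
  · rw [n2, hc]
    refine ⟨by omega, by omega, by omega, fun h => by omega⟩
  · rw [n1, n2]
    omega

end five

section three

theorem aff_ext_two {p : ℕ} [Fact p.Prime] {W : Type} [AddCommGroup W]
    {F G : ZMod p × ZMod p → W} (hF : Aff F) (hG : Aff G) (h0 : F (0, 0) = G (0, 0))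
    (h1 : F (1, 0) = G (1, 0)) (h2 : F (0, 1) = G (0, 1)) (w : ZMod p × ZMod p) :
    F w = G w := by
  apply aff_ext_layer hF hG _ h2
  intro v
  have a1 : Aff (fun v : ZMod p => ((v, 0) : ZMod p × ZMod p)) := by
    intro x y z
    simp
  exact aff_ext_zmod (hF.comp a1) (hG.comp a1) h0 h1 v

theorem oc_tri : OC (({(0, 0), (1, 0), (0, 1)} : Set (ZMod 3 × ZMod 3))ᶜ) := by
  intro f g hf hg hfo hgo hfR hgR v
  have h1 := comm_of_small (T := ({(0, 0), (1, 0), (0, 1)} : Set (ZMod 3 × ZMod 3))) (by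
    rw [Nat.card_coe_set_eq, Set.ncard_eq_toFinset_card']
    decide) f g hfo hgo (compl_iff hfR) (compl_iff hgR)
  apply aff_ext_two (hf.comp hg) (hg.comp hf)
  · exact h1 _ (by simp)
  · exact h1 _ (by simp)
  · exact h1 _ (by simp)

theorem zmod3_odd (a : ZMod 3) (n : ℕ) (hn : Odd n) (h : a ^ n = 1) : a = 1 := by
  obtain ⟨k, rfl⟩ := hn
  rw [pow_succ, pow_mul] at h
  have h1 : ∀ a : ZMod 3, a = 0 ∨ a = 1 ∨ a = 2 := by decide
  rcases h1 a with rfl | rfl | rfl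
  · rw [mul_zero] at h
    exact absurd h (by decide)
  · rfl
  · rw [show (2 : ZMod 3) ^ 2 = 1 by decide, one_pow, one_mul] at h
    exact h

theorem oc_dom : OC (({(0, 0), (1, 0)} : Set (ZMod 3 × ZMod 3))ᶜ) := by
  have key : ∀ f : Equiv.Perm (ZMod 3 × ZMod 3), Aff f → OddP f →
      (∀ v, f v ∈ (({(0, 0), (1, 0)} : Set (ZMod 3 × ZMod 3))ᶜ) ↔
        v ∈ (({(0, 0), (1, 0)} : Set (ZMod 3 × ZMod 3))ᶜ)) →
      (∀ v, f (v, 0) = (v, 0)) ∧ (f (0, 1)).2 = 1 := by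
    intro f hf hfo hfR
    obtain ⟨h1, h2⟩ := fix_pair hfo (by decide) (compl_iff hfR)
    have h3 : ∀ v, f (v, 0) = (v, 0) := by
      intro v
      have a1 : Aff (fun v : ZMod 3 => ((v, 0) : ZMod 3 × ZMod 3)) := by
        intro x y z
        simp
      exact aff_ext_zmod (hf.comp a1) a1 h1 h2 v
    refine ⟨h3, ?_⟩
    set a := (f (0, 1)).2 with ha
    have h4 : ∀ w, (f w).2 = w.2 * a := by
      intro w
      apply aff_ext_layer (F := fun w => (f w).2) (G := fun w => w.2 * a)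
      · intro x y z
        show (f (x - y + z)).2 = _
        rw [hf]
        rfl
      · intro x y z
        show (x.2 - y.2 + z.2) * a = x.2 * a - y.2 * a + z.2 * a
        ring
      · intro v
        show (f (v, 0)).2 = 0 * a
        rw [h3, zero_mul]
      · show (f (0, 1)).2 = 1 * a
        rw [one_mul]
    obtain ⟨n, hn, hfn⟩ := hfo
    have h5 : ∀ m : ℕ, ((f ^ m) (0, 1)).2 = a ^ m := by
      intro m
      induction m with
      | zero => simp
      | succ m ih =>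
          rw [pow_succ', Equiv.Perm.mul_apply, h4, ih, pow_succ]
    have h6 := h5 n
    rw [hfn] at h6
    exact zmod3_odd a n hn h6.symm
  intro f g hf hg hfo hgo hfR hgR v
  obtain ⟨a1, a2⟩ := key f hf hfo hfR
  obtain ⟨b1, b2⟩ := key g hg hgo hgR
  apply aff_ext_layer (hf.comp hg) (hg.comp hf)
  · intro v
    show f (g (v, 0)) = g (f (v, 0))
    rw [b1, a1, b1]
  · show f (g (0, 1)) = g (f (0, 1))
    have e1 : ∀ w : ZMod 3 × ZMod 3, w.2 = 1 → w = (w.1, 0) - (0, 0) + (0, 1) := by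
      rintro ⟨x, y⟩ h
      simp only at h
      subst h
      simp
    have e2 : f (g (0, 1)) = ((g (0, 1)).1, 0) - (0, 0) + f (0, 1) := by
      conv_lhs => rw [e1 _ b2]
      rw [hf, a1, a1]
    have e3 : g (f (0, 1)) = ((f (0, 1)).1, 0) - (0, 0) + g (0, 1) := by
      conv_lhs => rw [e1 _ a2]
      rw [hg, b1, b1]
    rw [e2, e3]
    apply Prod.ext
    · simp [add_comm]
    · simp [a2, b2]

theorem pair_three : Pair 3 (ZMod 3 × ZMod 3) := by
  have hc : Nat.card (ZMod 3 × ZMod 3) = 9 := by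
    rw [Nat.card_prod, Nat.card_zmod]
  have n1 : (({(0, 0), (1, 0), (0, 1)} : Set (ZMod 3 × ZMod 3))ᶜ).ncard = 6 := by
    have h1 := Set.ncard_add_ncard_compl ({(0, 0), (1, 0), (0, 1)} : Set (ZMod 3 × ZMod 3))
    have h2 : ({(0, 0), (1, 0), (0, 1)} : Set (ZMod 3 × ZMod 3)).ncard = 3 := by
      rw [Set.ncard_eq_toFinset_card']
      decide
    omega
  have n2 : (({(0, 0), (1, 0)} : Set (ZMod 3 × ZMod 3))ᶜ).ncard = 7 := by
    have h1 := Set.ncard_add_ncard_compl ({(0, 0), (1, 0)} : Set (ZMod 3 × ZMod 3))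
    have h2 : ({(0, 0), (1, 0)} : Set (ZMod 3 × ZMod 3)).ncard = 2 := by
      rw [Set.ncard_eq_toFinset_card']
      decide
    omega
  refine ⟨_, _, ⟨oc_tri, ?_⟩, ⟨oc_dom, ?_⟩, ?_⟩
  · rw [n1, hc]
    omega
  · rw [n2, hc]
    omega
  · rw [n1, n2]
    omega

end three

section four

set_option synthInstance.maxSize 4000

/-- strangers in `R` -/
def str {V : Type} [AddCommGroup V] (R : Set V) (x y : V) : Prop :=
  x ∈ R ∧ y ∈ R ∧ ∀ z ∈ R, z ≠ x → z ≠ y → x - y + z ∉ R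

theorem str_iff {V : Type} [AddCommGroup V] {R : Set V} {f : Equiv.Perm V} (hf : Aff f)
    (hR : ∀ v, f v ∈ R ↔ v ∈ R) (x y : V) : str R (f x) (f y) ↔ str R x y := by
  unfold str
  rw [hR, hR]
  refine and_congr_right fun _ => and_congr_right fun _ => ?_
  constructor
  · intro h z hz hzx hzy hcon
    apply h (f z) ((hR z).2 hz) (fun h => hzx (f.injective h)) (fun h => hzy (f.injective h))
    rw [← hf, hR]
    exact hcon
  · intro h z hz hzx hzy hcon
    obtain ⟨w, rfl⟩ := f.surjective z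
    apply h w ((hR w).1 hz) (fun h => hzx (by rw [h])) (fun h => hzy (by rw [h]))
    rw [← hR, hf]
    exact hcon

/-- odd-order maps preserve both sides of a complete bipartite relation -/
theorem two_parts {V : Type} {S : V → V → Prop} {T1 T2 : Set V} (hd : ∀ x, x ∈ T1 → x ∉ T2)
    {a b : V} (ha : a ∈ T1) (hb : b ∈ T2)
    (hS : ∀ x y, S x y ↔ (x ∈ T1 ∧ y ∈ T2) ∨ (x ∈ T2 ∧ y ∈ T1))
    {f : Equiv.Perm V} (hfo : OddP f) (hf : ∀ x y, S (f x) (f y) ↔ S x y) :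
    (∀ x, f x ∈ T1 ↔ x ∈ T1) ∧ (∀ x, f x ∈ T2 ↔ x ∈ T2) := by
  have h1 : ∀ x ∈ T1, ∀ y ∈ T2, (f x ∈ T1 ∧ f y ∈ T2) ∨ (f x ∈ T2 ∧ f y ∈ T1) := by
    intro x hx y hy
    rw [← hS, hf, hS]
    exact Or.inl ⟨hx, hy⟩
  have h2 : ∀ x ∈ T1, f (f x) ∈ T1 := by
    intro x hx
    rcases h1 x hx b hb with ⟨h3, -⟩ | ⟨h3, h4⟩
    · rcases h1 (f x) h3 b hb with ⟨h5, -⟩ | ⟨h5, h6⟩
      · exact h5
      · exfalso
        rcases h1 x hx b hb with ⟨h7, h8⟩ | ⟨h7, h8⟩
        · exact hd _ h6 h8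
        · exact hd _ h3 h7
    · rcases h1 x hx (f x) h3 with ⟨h5, -⟩ | ⟨-, h5⟩
      · exact absurd h3 (hd _ h5)
      · exact h5
  have h3 : ∀ k : ℕ, ∀ x ∈ T1, (f ^ (2 * k)) x ∈ T1 := by
    intro k
    induction k with
    | zero => intro x hx; simpa using hx
    | succ k ih =>
        intro x hx
        rw [show 2 * (k + 1) = 2 * k + 2 by ring, pow_add, Equiv.Perm.mul_apply, pow_two,
          Equiv.Perm.mul_apply]
        exact ih _ (h2 x hx)
  obtain ⟨n, ⟨k, rfl⟩, hn⟩ := hfo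
  have h4 : f ((f ^ (2 * k)) a) = a := by
    rw [← Equiv.Perm.mul_apply, ← pow_succ', hn]
    rfl
  have h5 := h3 k a ha
  set z := (f ^ (2 * k)) a with hz
  have h6 : ∀ y ∈ T2, f y ∈ T2 := by
    intro y hy
    rcases h1 z h5 y hy with ⟨-, h7⟩ | ⟨h7, -⟩
    · exact h7
    · rw [h4] at h7
      exact absurd h7 (hd _ ha)
  have h7 : ∀ x ∈ T1, f x ∈ T1 := by
    intro x hx
    rcases h1 x hx b hb with ⟨h8, -⟩ | ⟨-, h8⟩
    · exact h8
    · exact absurd (h6 b hb) (hd _ h8)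
  -- the relation characterises the union
  have h8 : ∀ x, f x ∈ T1 ∨ f x ∈ T2 → x ∈ T1 ∨ x ∈ T2 := by
    intro x hx
    rcases hx with hx | hx
    · obtain ⟨y, hy⟩ := f.surjective b
      have : S (f x) (f y) := (hS _ _).2 (Or.inl ⟨hx, by rw [hy]; exact hb⟩)
      rw [hf, hS] at this
      tauto
    · obtain ⟨y, hy⟩ := f.surjective a
      have : S (f x) (f y) := (hS _ _).2 (Or.inr ⟨hx, by rw [hy]; exact ha⟩)
      rw [hf, hS] at this
      tauto
  refine ⟨fun x => ⟨fun hx => ?_, h7 x⟩, fun x => ⟨fun hx => ?_, h6 x⟩⟩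
  · rcases h8 x (Or.inl hx) with h9 | h9
    · exact h9
    · exact absurd (h6 x h9) (hd _ hx)
  · rcases h8 x (Or.inr hx) with h9 | h9
    · exact absurd hx (hd _ (h7 x h9))
    · exact h9

/-- the four-dimensional space -/
abbrev V4 : Type := ((ZMod 2 × ZMod 2) × ZMod 2) × ZMod 2

theorem aff_ext_four {W : Type} [AddCommGroup W] {F G : V4 → W} (hF : Aff F) (hG : Aff G)
    (h0 : F (((0, 0), 0), 0) = G (((0, 0), 0), 0))
    (h1 : F (((1, 0), 0), 0) = G (((1, 0), 0), 0))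
    (h2 : F (((0, 1), 0), 0) = G (((0, 1), 0), 0))
    (h3 : F (((0, 0), 1), 0) = G (((0, 0), 1), 0))
    (h4 : F (((0, 0), 0), 1) = G (((0, 0), 0), 1)) (w : V4) : F w = G w := by
  have : Fact (Nat.Prime 2) := ⟨Nat.prime_two⟩
  apply aff_ext_layer hF hG _ h4
  intro v
  have a1 : Aff (fun v : (ZMod 2 × ZMod 2) × ZMod 2 => ((v, 0) : V4)) := by
    intro x y z
    simp
  apply aff_ext_layer (hF.comp a1) (hG.comp a1) _ h3
  intro v
  have a2 : Aff (fun v : ZMod 2 × ZMod 2 => (((v, 0), 0) : V4)) := by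
    intro x y z
    simp
  exact aff_ext_two (hF.comp a2) (hG.comp a2) h0 h1 h2 v

/-- seven points: two planes through the origin -/
def B7 : Finset V4 :=
  {(((0, 0), 0), 0), (((1, 0), 0), 0), (((0, 1), 0), 0), (((1, 1), 0), 0),
    (((0, 0), 1), 0), (((0, 0), 0), 1), (((0, 0), 1), 1)}

def P1 : Finset V4 := {(((1, 0), 0), 0), (((0, 1), 0), 0), (((1, 1), 0), 0)}
def P2 : Finset V4 := {(((0, 0), 1), 0), (((0, 0), 0), 1), (((0, 0), 1), 1)}

/-- eight points -/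
def B8 : Finset V4 :=
  {(((0, 0), 0), 0), (((1, 0), 0), 0), (((0, 1), 0), 0), (((1, 1), 0), 0),
    (((0, 0), 1), 0), (((0, 0), 0), 1), (((0, 0), 1), 1), (((1, 0), 1), 0)}

def Q1 : Finset V4 := {(((0, 1), 0), 0), (((1, 1), 0), 0)}
def Q2 : Finset V4 := {(((0, 0), 0), 1), (((0, 0), 1), 1)}

theorem b7_str : ∀ x y : V4, (x ∈ B7 ∧ y ∈ B7 ∧ ∀ z ∈ B7, z ≠ x → z ≠ y → x - y + z ∉ B7) ↔
    ((x ∈ P1 ∧ y ∈ P2) ∨ (x ∈ P2 ∧ y ∈ P1)) := by
  decide +kernel

theorem b8_str : ∀ x y : V4, (x ∈ B8 ∧ y ∈ B8 ∧ ∀ z ∈ B8, z ≠ x → z ≠ y → x - y + z ∉ B8) ↔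
    ((x ∈ Q1 ∧ y ∈ Q2) ∨ (x ∈ Q2 ∧ y ∈ Q1)) := by
  decide +kernel

theorem p12 : ∀ x : V4, x ∈ P1 → x ∉ P2 := by decide +kernel
theorem q12 : ∀ x : V4, x ∈ Q1 → x ∉ Q2 := by decide +kernel
theorem b7_zero : ∀ x : V4, x ∈ B7 → x ∉ P1 → x ∉ P2 → x = 0 := by decide +kernel
theorem b8_rest : ∀ x : V4, x ∈ B8 → x ∉ Q1 → x ∉ Q2 →
    x = 0 ∨ x = (((1, 0), 0), 0) ∨ x = (((0, 0), 1), 0) ∨ x = (((1, 0), 1), 0) := by
  decide +kernel

theorem oc_b7 : OC (B7 : Set V4) := by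
  have key : ∀ f : Equiv.Perm V4, Aff f → OddP f →
      (∀ v, f v ∈ (B7 : Set V4) ↔ v ∈ (B7 : Set V4)) →
      (∀ x, f x ∈ (P1 : Set V4) ↔ x ∈ (P1 : Set V4)) ∧
      (∀ x, f x ∈ (P2 : Set V4) ↔ x ∈ (P2 : Set V4)) ∧ f 0 = 0 := by
    intro f hf hfo hfR
    obtain ⟨h1, h2⟩ := two_parts (S := str (B7 : Set V4)) (T1 := (P1 : Set V4))
      (T2 := (P2 : Set V4)) p12 (a := (((1, 0), 0), 0)) (b := (((0, 0), 1), 0))
      (by decide +kernel) (by decide +kernel) b7_str hfo (str_iff hf hfR)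
    refine ⟨h1, h2, b7_zero _ ((hfR 0).2 (by decide +kernel)) ?_ ?_⟩
    · intro h
      exact absurd ((h1 0).1 h) (by decide +kernel)
    · intro h
      exact absurd ((h2 0).1 h) (by decide +kernel)
  intro f g hf hg hfo hgo hfR hgR
  obtain ⟨a1, a2, a3⟩ := key f hf hfo hfR
  obtain ⟨b1, b2, b3⟩ := key g hg hgo hgR
  have c1 := comm_of_small (T := (P1 : Set V4)) (by
    rw [Nat.card_coe_set_eq, Set.ncard_coe_finset]
    decide +kernel) f g hfo hgo a1 b1
  have c2 := comm_of_small (T := (P2 : Set V4)) (by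
    rw [Nat.card_coe_set_eq, Set.ncard_coe_finset]
    decide +kernel) f g hfo hgo a2 b2
  apply aff_ext_four (hf.comp hg) (hg.comp hf)
  · show f (g 0) = g (f 0)
    rw [a3, b3, a3]
  · exact c1 _ (by decide +kernel)
  · exact c1 _ (by decide +kernel)
  · exact c2 _ (by decide +kernel)
  · exact c2 _ (by decide +kernel)

theorem oc_b8 : OC (B8 : Set V4) := by
  have e1 : ((((1, 0), 0), 0) : V4) = 0 - (((0, 1), 0), 0) + (((1, 1), 0), 0) := by
    decide +kernel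
  have e2 : ((((0, 0), 1), 0) : V4) = 0 - (((0, 0), 0), 1) + (((0, 0), 1), 1) := by
    decide +kernel
  have e3 : ((((1, 0), 1), 0) : V4) = (((1, 0), 0), 0) - 0 + (((0, 0), 1), 0) := by
    decide +kernel
  have key : ∀ f : Equiv.Perm V4, Aff f → OddP f →
      (∀ v, f v ∈ (B8 : Set V4) ↔ v ∈ (B8 : Set V4)) →
      (f (((0, 1), 0), 0) = (((0, 1), 0), 0) ∧ f (((1, 1), 0), 0) = (((1, 1), 0), 0)) ∧
      (f (((0, 0), 0), 1) = (((0, 0), 0), 1) ∧ f (((0, 0), 1), 1) = (((0, 0), 1), 1)) ∧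
      (f 0 = 0 ∨ f 0 = (((1, 0), 0), 0) ∨ f 0 = (((0, 0), 1), 0) ∨ f 0 = (((1, 0), 1), 0)) := by
    intro f hf hfo hfR
    obtain ⟨h1, h2⟩ := two_parts (S := str (B8 : Set V4)) (T1 := (Q1 : Set V4))
      (T2 := (Q2 : Set V4)) q12 (a := (((0, 1), 0), 0)) (b := (((0, 0), 0), 1))
      (by decide +kernel) (by decide +kernel) b8_str hfo (str_iff hf hfR)
    have q1 : (Q1 : Set V4) = {(((0, 1), 0), 0), (((1, 1), 0), 0)} := by
      simp [Q1]
    have q2 : (Q2 : Set V4) = {(((0, 0), 0), 1), (((0, 0), 1), 1)} := by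
      simp [Q2]
    refine ⟨fix_pair hfo (by decide +kernel) (by rw [← q1]; exact h1),
      fix_pair hfo (by decide +kernel) (by rw [← q2]; exact h2), ?_⟩
    apply b8_rest _ ((hfR 0).2 (by decide +kernel))
    · intro h
      exact absurd ((h1 0).1 h) (by decide +kernel)
    · intro h
      exact absurd ((h2 0).1 h) (by decide +kernel)
  have key2 : ∀ f : Equiv.Perm V4, Aff f →
      (f (((0, 1), 0), 0) = (((0, 1), 0), 0) ∧ f (((1, 1), 0), 0) = (((1, 1), 0), 0)) →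
      (f (((0, 0), 0), 1) = (((0, 0), 0), 1) ∧ f (((0, 0), 1), 1) = (((0, 0), 1), 1)) →
      ∀ u : V4, (u = 0 ∨ u = (((1, 0), 0), 0) ∨ u = (((0, 0), 1), 0) ∨ u = (((1, 0), 1), 0)) →
      f u = f 0 + u := by
    rintro f hf ⟨h1, h2⟩ ⟨h3, h4⟩ u hu
    have k1 : f (((1, 0), 0), 0) = f 0 + (((1, 0), 0), 0) := by
      rw [e1, hf, h1, h2]
      abel
    have k2 : f (((0, 0), 1), 0) = f 0 + (((0, 0), 1), 0) := by
      rw [e2, hf, h3, h4]
      abel
    rcases hu with rfl | rfl | rfl | rfl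
    · rw [add_zero]
    · exact k1
    · exact k2
    · rw [e3, hf, k1, k2]
      abel
  intro f g hf hg hfo hgo hfR hgR
  obtain ⟨a1, a2, a3⟩ := key f hf hfo hfR
  obtain ⟨b1, b2, b3⟩ := key g hg hgo hgR
  have a4 := key2 f hf a1 a2
  have b4 := key2 g hg b1 b2
  have h0 : f (g 0) = g (f 0) := by
    rw [a4 _ b3, b4 _ a3, add_comm]
  have F : Aff (fun v => f (g v)) := hf.comp hg
  have G : Aff (fun v => g (f v)) := hg.comp hf
  have k1 : f (g (((0, 1), 0), 0)) = g (f (((0, 1), 0), 0)) := by rw [b1.1, a1.1, b1.1]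
  have k2 : f (g (((1, 1), 0), 0)) = g (f (((1, 1), 0), 0)) := by rw [b1.2, a1.2, b1.2]
  have k3 : f (g (((0, 0), 0), 1)) = g (f (((0, 0), 0), 1)) := by rw [b2.1, a2.1, b2.1]
  have k4 : f (g (((0, 0), 1), 1)) = g (f (((0, 0), 1), 1)) := by rw [b2.2, a2.2, b2.2]
  apply aff_ext_four F G
  · exact h0
  · have l1 := F 0 (((0, 1), 0), 0) (((1, 1), 0), 0)
    have l2 := G 0 (((0, 1), 0), 0) (((1, 1), 0), 0)
    simp only [← e1] at l1 l2
    rw [l1, l2, h0, k1, k2]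
  · exact k1
  · have l1 := F 0 (((0, 0), 0), 1) (((0, 0), 1), 1)
    have l2 := G 0 (((0, 0), 0), 1) (((0, 0), 1), 1)
    simp only [← e2] at l1 l2
    rw [l1, l2, h0, k3, k4]
  · exact k3

theorem rob_b7' : ∀ x : V4, ∀ a b c d t : ZMod 2,
    (∀ v ∈ B7, v ≠ x → v.1.1.1 * a + v.1.1.2 * b + v.1.2 * c + v.2 * d + t = 0) →
      (a = 0 ∧ b = 0 ∧ c = 0 ∧ d = 0) ∧ t = 0 := by
  decide +kernel

theorem rob_b7c' : ∀ x : V4, ∀ a b c d t : ZMod 2,
    (∀ v : V4, v ∉ B7 → v ≠ x → v.1.1.1 * a + v.1.1.2 * b + v.1.2 * c + v.2 * d + t = 0) →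
      (a = 0 ∧ b = 0 ∧ c = 0 ∧ d = 0) ∧ t = 0 := by
  decide +kernel

theorem lin_form (α : V4 →+ ZMod 2) (v : V4) : α v = v.1.1.1 * α (((1, 0), 0), 0) +
    v.1.1.2 * α (((0, 1), 0), 0) + v.1.2 * α (((0, 0), 1), 0) + v.2 * α (((0, 0), 0), 1) := by
  apply aff_ext_four (F := α) (G := fun v : V4 => v.1.1.1 * α (((1, 0), 0), 0) +
    v.1.1.2 * α (((0, 1), 0), 0) + v.1.2 * α (((0, 0), 1), 0) + v.2 * α (((0, 0), 0), 1))
  · intro x y z
    rw [map_add, map_sub]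
  · rintro ⟨⟨⟨x1, x2⟩, x3⟩, x4⟩ ⟨⟨⟨y1, y2⟩, y3⟩, y4⟩ ⟨⟨⟨z1, z2⟩, z3⟩, z4⟩
    simp only [Prod.mk_sub_mk, Prod.mk_add_mk]
    ring
  · simp only [zero_mul, add_zero]
    exact map_zero α
  · simp
  · simp
  · simp
  · simp

theorem rob_b7 : Rob 2 (B7 : Set V4) := by
  intro x α t h
  obtain ⟨⟨h1, h2, h3, h4⟩, h5⟩ := rob_b7' x _ _ _ _ t (fun v hv hvx => by
    rw [← lin_form α v]
    exact h v hv hvx)
  refine ⟨?_, h5⟩
  ext v
  rw [lin_form α v, h1, h2, h3, h4]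
  simp

theorem rob_b7c : Rob 2 ((B7 : Set V4)ᶜ) := by
  intro x α t h
  obtain ⟨⟨h1, h2, h3, h4⟩, h5⟩ := rob_b7c' x _ _ _ _ t (fun v hv hvx => by
    rw [← lin_form α v]
    exact h v hv hvx)
  refine ⟨?_, h5⟩
  ext v
  rw [lin_form α v, h1, h2, h3, h4]
  simp

theorem card_V4 : Nat.card V4 = 16 := by
  simp only [V4, Nat.card_prod, Nat.card_zmod]

theorem ncard_b7 : (B7 : Set V4).ncard = 7 := by
  rw [Set.ncard_coe_finset]
  decide +kernel

theorem ncard_b8 : (B8 : Set V4).ncard = 8 := by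
  rw [Set.ncard_coe_finset]
  decide +kernel

theorem ncard_b7c : ((B7 : Set V4)ᶜ).ncard = 9 := by
  have := Set.ncard_add_ncard_compl (B7 : Set V4)
  rw [ncard_b7, card_V4] at this
  omega

theorem good_four : Good3 V4 := by
  refine Good3.of (B7 : Set V4) (B7 : Set V4)ᶜ (B8 : Set V4) oc_b7 oc_b7.compl oc_b8 ?_ ?_ ?_
  · rw [ncard_b7, ncard_b7c]; decide
  · rw [ncard_b7, ncard_b8]; decide
  · rw [ncard_b7c, ncard_b8]; decide

theorem pair_five_two : Pair 2 (V4 × ZMod 2) := by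
  have : Fact (Nat.Prime 2) := ⟨Nat.prime_two⟩
  have n1 := ncard_ext 2 (B7 : Set V4)
  have n2 := ncard_ext 2 ((B7 : Set V4)ᶜ)
  rw [ncard_b7, card_V4] at n1
  rw [ncard_b7c, card_V4] at n2
  have hc : Nat.card (V4 × ZMod 2) = 32 := by
    rw [Nat.card_prod, card_V4, Nat.card_zmod]
  refine ⟨_, _, ⟨ext_oc oc_b7 rob_b7, ?_⟩, ⟨ext_oc oc_b7.compl rob_b7c, ?_⟩, ?_⟩
  · rw [hc]; omega
  · rw [hc]; omega
  · omega

end four

/-- vector spaces over prime fields with at least five and not eight elements -/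
theorem lin {V : Type} [AddCommGroup V] [Finite V] (p : ℕ) [hp : Fact p.Prime]
    [Module (ZMod p) V] (h5 : 5 ≤ Nat.card V) (h8 : Nat.card V ≠ 8) : Good3 V := by
  have : Module.Finite (ZMod p) V := Module.Finite.of_finite
  set d := Module.finrank (ZMod p) V with hd
  let L : V ≃ₗ[ZMod p] (Fin d → ZMod p) := (Module.finBasis (ZMod p) V).equivFun
  have hcard : Nat.card V = p ^ d := by
    rw [Nat.card_congr L.toEquiv]
    simp
  rw [hcard] at h5 h8
  apply Good3.comap L.toAddEquiv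
  by_cases hp5 : 5 ≤ p
  · have hd1 : 1 ≤ d := by
      rw [Nat.one_le_iff_ne_zero]
      intro h
      rw [h, pow_zero] at h5
      omega
    obtain ⟨n, hn⟩ := Nat.exists_eq_add_of_le hd1
    rw [hn]
    apply Pair.good3 (p := p)
    apply pair_iter
    have L1 : (Fin 1 → ZMod p) ≃ₗ[ZMod p] ZMod p := by
      apply LinearEquiv.ofFinrankEq
      simp
    exact (pair_five hp5).comap L1.toAddEquiv
  · have hp2 := hp.out.two_le
    have hp4 : p ≠ 4 := by
      rintro rfl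
      exact absurd hp.out (by decide)
    have hp23 : p = 2 ∨ p = 3 := by omega
    rcases hp23 with rfl | rfl
    · have hd4 : 4 ≤ d := by
        by_contra h
        have : d = 0 ∨ d = 1 ∨ d = 2 ∨ d = 3 := by omega
        rcases this with h | h | h | h <;> rw [h] at h5 h8 <;> omega
      rcases Nat.eq_or_lt_of_le hd4 with h4 | h4
      · rw [← h4]
        have L1 : (Fin 4 → ZMod 2) ≃ₗ[ZMod 2] V4 := by
          apply LinearEquiv.ofFinrankEq
          simp [V4]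
        exact good_four.comap L1.toAddEquiv
      · obtain ⟨n, hn⟩ := Nat.exists_eq_add_of_le (show 5 ≤ d from h4)
        rw [hn]
        apply Pair.good3 (p := 2)
        apply pair_iter
        have L1 : (Fin 5 → ZMod 2) ≃ₗ[ZMod 2] V4 × ZMod 2 := by
          apply LinearEquiv.ofFinrankEq
          simp [V4]
        exact pair_five_two.comap L1.toAddEquiv
    · have hd2 : 2 ≤ d := by
        by_contra h
        have : d = 0 ∨ d = 1 := by omega
        rcases this with h | h <;> rw [h] at h5 h8 <;> omega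
      obtain ⟨n, hn⟩ := Nat.exists_eq_add_of_le hd2
      rw [hn]
      apply Pair.good3 (p := 3)
      apply pair_iter
      have L1 : (Fin 2 → ZMod 3) ≃ₗ[ZMod 3] ZMod 3 × ZMod 3 := by
        apply LinearEquiv.ofFinrankEq
        simp
      exact pair_three.comap L1.toAddEquiv

end Pool.Agent.R721.TC
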