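import Pool.Agent.R721.TC.Prim

set_option autoImplicit false

open MulAction

namespace Pool.Agent.R721.TC

theorem fix_of_pow {X : Type} {f : Equiv.Perm X} (hf : OddP f) (k : ℕ) :
    ∀ x : X, (f ^ (2 ^ k)) x = x → f x = x := by
  induction k with
  | zero => intro x h; simpa using h
  | succ k ih =>
      intro x h
      apply ih
      have ho : OddP (f ^ (2 ^ k)) := by
        obtain ⟨n, hn, hfn⟩ := hf
        exact ⟨n, hn, by rw [← pow_mul, mul_comm, pow_mul, hfn, one_pow]⟩
      apply fix_of_sq ho
      rw [← Equiv.Perm.mul_apply, ← pow_two, ← pow_mul]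
      rwa [pow_succ] at h

/-- coset actions of soluble groups -/
theorem coset {G : Type} [Group G] [Finite G] [Group.IsSolvable G] (U : Subgroup G) :
    ∃ R : Set (G ⧸ U), OCG G R := by
  by_cases hT : U = ⊤
  · refine ⟨∅, fun g h _ _ _ _ x => ?_⟩
    have h1 : Nat.card (G ⧸ U) = 1 := Subgroup.index_eq_one.2 hT
    exact (Nat.card_eq_one_iff_unique.1 h1).1.elim _ _
  · -- a minimal overgroup
    have hmax : ¬ IsMax U := fun h => hT (isMax_iff_eq_top.1 h)
    obtain ⟨S, hS⟩ := exists_covBy_of_wellFoundedLT hmax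
    have hle : U ≤ S := hS.le
    obtain ⟨κ, hκ⟩ := Pool.Agent.R721.SC.coset (G := G) _ S le_rfl
    have hco : IsCoatom (U.subgroupOf S) := by
      constructor
      · intro h
        rw [Subgroup.subgroupOf_eq_top] at h
        exact absurd h hS.lt.not_ge
      · intro T hUT
        have h1 : U < T.map S.subtype := by
          have h2 : (U.subgroupOf S).map S.subtype < T.map S.subtype :=
            (Subgroup.map_lt_map_iff_of_injective S.subtype_injective).2 hUT
          rwa [Subgroup.map_subgroupOf_eq_of_le hle] at h2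
        have h2 : T.map S.subtype ≤ S := Subgroup.map_subtype_le T
        rcases h2.lt_or_eq with h3 | h3
        · exact absurd h3 (hS.2 h1)
        · rw [eq_top_iff]
          intro x _
          have h4 : (x : G) ∈ T.map S.subtype := by rw [h3]; exact x.2
          obtain ⟨y, hy, hyx⟩ := h4
          have : y = x := Subtype.ext hyx
          rwa [this] at hy
    obtain ⟨c, hc1, hc2⟩ := prim_quot (U.subgroupOf S) hco
    let r : G ⧸ S → G := Quotient.out
    have hr : Function.RightInverse r (QuotientGroup.mk : G → G ⧸ S) :=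
      fun q => QuotientGroup.out_eq' q
    let E := Subgroup.quotientEquivProdOfLE' hle r hr
    have hsm : ∀ (g : G) (q : G ⧸ S), (r (g • q))⁻¹ * g * r q ∈ S := by
      intro g q
      rw [mul_assoc, ← QuotientGroup.eq, hr]
      show g • q = ((g * r q : G) : G ⧸ S)
      rw [← smul_eq_mul, ← MulAction.Quotient.smul_coe, hr]
    let sm : G → G ⧸ S → S := fun g q => ⟨(r (g • q))⁻¹ * g * r q, hsm g q⟩
    have hE : ∀ (g : G) (x : G ⧸ U), E (g • x) = (g • (E x).1, sm g (E x).1 • (E x).2) := by
      intro g x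
      induction x using QuotientGroup.induction_on with
      | H h =>
          have e1 : E ((h : G) : G ⧸ U) = (((h : G) : G ⧸ S),
              ((⟨(r ((h : G) : G ⧸ S))⁻¹ * h, QuotientGroup.eq.1 (hr _)⟩ : S) :
                S ⧸ U.subgroupOf S)) := rfl
          have e2 : E (g • ((h : G) : G ⧸ U)) = (((g * h : G) : G ⧸ S),
              ((⟨(r ((g * h : G) : G ⧸ S))⁻¹ * (g * h), QuotientGroup.eq.1 (hr _)⟩ : S) :
                S ⧸ U.subgroupOf S)) := rfl
          rw [e1, e2]
          refine Prod.ext rfl (congrArg (QuotientGroup.mk : S → S ⧸ U.subgroupOf S)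
            (Subtype.ext ?_))
          show (r ((g * h : G) : G ⧸ S))⁻¹ * (g * h) =
            (r (g • ((h : G) : G ⧸ S)))⁻¹ * g * r ((h : G) : G ⧸ S) *
              ((r ((h : G) : G ⧸ S))⁻¹ * h)
          have e3 : g • ((h : G) : G ⧸ S) = ((g * h : G) : G ⧸ S) := rfl
          rw [e3]
          group
    refine ⟨{x | (E x).2 ∈ c (κ (E x).1)}, ?_⟩
    -- the stabiliser preserves the colours of the blocks
    have key : ∀ g : G, (∀ x : G ⧸ U, g • x ∈ ({x | (E x).2 ∈ c (κ (E x).1)} : Set (G ⧸ U)) ↔
        x ∈ ({x | (E x).2 ∈ c (κ (E x).1)} : Set (G ⧸ U))) →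
        (∀ q, κ (g • q) = κ q) ∧
          ∀ q y, sm g q • y ∈ c (κ q) ↔ y ∈ c (κ q) := by
      intro g hg
      have h0 : ∀ q y, sm g q • y ∈ c (κ (g • q)) ↔ y ∈ c (κ q) := by
        intro q y
        have h2 := hg (E.symm (q, y))
        change (E (g • E.symm (q, y))).2 ∈ c (κ (E (g • E.symm (q, y))).1) ↔
          (E (E.symm (q, y))).2 ∈ c (κ (E (E.symm (q, y))).1) at h2
        rw [hE, E.apply_symm_apply] at h2
        exact h2
      have h1 : ∀ q, κ (g • q) = κ q := by
        intro q
        apply hc1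
        show (c (κ (g • q))).ncard = (c (κ q)).ncard
        rw [← Nat.card_coe_set_eq, ← Nat.card_coe_set_eq]
        symm
        apply Nat.card_congr
        exact (MulAction.toPerm (sm g q)).subtypeEquiv (fun y => (h0 q y).symm)
      refine ⟨h1, fun q y => ?_⟩
      have := h0 q y
      rwa [h1] at this
    have key2 : ∀ g : G, OddG g → (∀ q, κ (g • q) = κ q) →
        (∀ q : G ⧸ S, g • q = q) ∧ ∀ q, OddG (sm g q) := by
      intro g hgo hgκ
      obtain ⟨k, hk⟩ := hκ g hgκ
      have hq : ∀ q : G ⧸ S, g • q = q := by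
        intro q
        apply fix_of_pow (oddP_toPerm (X := G ⧸ S) hgo) k q
        rw [← map_pow]
        exact hk q
      have hfix : ∀ (m : ℕ) (q : G ⧸ S), g ^ m • q = q := by
        intro m q
        induction m with
        | zero => rw [pow_zero, one_smul]
        | succ m ihm => rw [pow_succ', mul_smul, ihm, hq]
      have hsp : ∀ (m : ℕ) (q : G ⧸ S), sm (g ^ m) q = (sm g q) ^ m := by
        intro m q
        induction m with
        | zero =>
            rw [pow_zero (sm g q)]
            apply Subtype.ext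
            show (r (g ^ 0 • q))⁻¹ * g ^ 0 * r q = 1
            rw [hfix, pow_zero, mul_one, inv_mul_cancel]
        | succ m ihm =>
            rw [pow_succ (sm g q) m, ← ihm]
            apply Subtype.ext
            show (r (g ^ (m + 1) • q))⁻¹ * g ^ (m + 1) * r q =
              ((r (g ^ m • q))⁻¹ * g ^ m * r q) * ((r (g • q))⁻¹ * g * r q)
            rw [hfix, hfix, hq, pow_succ]
            group
      refine ⟨hq, fun q => ?_⟩
      obtain ⟨n, hn, hgn⟩ := hgo
      refine ⟨n, hn, ?_⟩
      rw [← hsp, hgn]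
      have := hsp 0 q
      rwa [pow_zero, pow_zero] at this
    intro g h hgo hho hgR hhR x
    obtain ⟨g1, g2⟩ := key g hgR
    obtain ⟨h1, h2⟩ := key h hhR
    obtain ⟨g3, g4⟩ := key2 g hgo g1
    obtain ⟨h3, h4⟩ := key2 h hho h1
    apply E.injective
    rw [hE, hE, hE, hE]
    simp only [g3, h3]
    refine Prod.ext rfl ?_
    exact hc2 (κ (E x).1) (sm g (E x).1) (sm h (E x).1) (g4 _) (h4 _) (g2 _) (h2 _) _

/-- arbitrary actions of soluble groups -/
theorem action {G X : Type} [Group G] [Finite G] [Group.IsSolvable G] [MulAction G X] :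
    ∃ R : Set X, OCG G R := by
  classical
  have h1 : ∀ x : X, ∃ R : Set (G ⧸ stabilizer G x), OCG G R :=
    fun x => coset (stabilizer G x)
  choose Γ hΓ using h1
  let rep : X → X := fun x => (Quotient.mk (orbitRel G X) x).out
  have hrep : ∀ x, ∃ g : G, g • rep x = x := by
    intro x
    have h2 : (orbitRel G X) (rep x) x := Quotient.mk_out (s := orbitRel G X) x
    have h3 : (orbitRel G X) x (rep x) := (orbitRel G X).symm h2
    exact h3
  have hrepg : ∀ (g : G) x, rep (g • x) = rep x := by
    intro g x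
    have h2 : (Quotient.mk (orbitRel G X) (g • x)) = Quotient.mk (orbitRel G X) x :=
      Quotient.sound ⟨g, rfl⟩
    show (Quotient.mk (orbitRel G X) (g • x)).out = (Quotient.mk (orbitRel G X) x).out
    rw [h2]
  choose s hs using hrep
  let R : Set X := {x | ((s x : G) : G ⧸ stabilizer G (rep x)) ∈ Γ (rep x)}
  have hγ : ∀ (x w : X) (h : G), rep x = w → h • w = x →
      (x ∈ R ↔ ((h : G) : G ⧸ stabilizer G w) ∈ Γ w) := by
    intro x w h hw hx
    subst hw
    have e1 : ((s x : G) : G ⧸ stabilizer G (rep x)) = ((h : G) : G ⧸ stabilizer G (rep x)) := by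
      rw [QuotientGroup.eq, mem_stabilizer_iff, mul_smul, hx, inv_smul_eq_iff, hs]
    show ((s x : G) : G ⧸ stabilizer G (rep x)) ∈ Γ (rep x) ↔ _
    rw [e1]
  refine ⟨R, fun g h hgo hho hgR hhR x => ?_⟩
  have h2 : ∀ g : G, (∀ x, g • x ∈ R ↔ x ∈ R) → ∀ w : X, rep w = w →
      ∀ y : G ⧸ stabilizer G w, g • y ∈ Γ w ↔ y ∈ Γ w := by
    intro g hgR w hw y
    induction y using QuotientGroup.induction_on with
    | H h =>
        have e1 := hγ (h • w) w h (by rw [hrepg, hw]) rfl
        have e2 := hγ (g • h • w) w (g * h) (by rw [hrepg, hrepg, hw]) (mul_smul g h w)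
        have e3 := hgR (h • w)
        rw [e1, e2] at e3
        exact e3
  have hidem : rep (rep x) = rep x := by
    have h4 := hrepg (s x) (rep x)
    rw [hs x] at h4
    exact h4.symm
  have e5 := hΓ (rep x) g h hgo hho (h2 g hgR _ hidem) (h2 h hhR _ hidem)
    ((s x : G) : G ⧸ stabilizer G (rep x))
  have e6 : ((g * (h * s x) : G) : G ⧸ stabilizer G (rep x))
      = ((h * (g * s x) : G) : G ⧸ stabilizer G (rep x)) := e5
  rw [QuotientGroup.eq, mem_stabilizer_iff, mul_smul, inv_smul_eq_iff, mul_smul, mul_smul,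
    mul_smul, mul_smul, hs x] at e6
  exact e6.symm

end Pool.Agent.R721.TC
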