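import Pool.Agent.R721.TC.Lin

set_option autoImplicit false

open MulAction
open scoped commutatorElement

namespace Pool.Agent.R721.TC

/-- elements of odd order -/
def OddG {G : Type} [Group G] (g : G) : Prop := ∃ n, Odd n ∧ g ^ n = 1

/-- elements of odd order stabilising `R` commute on `X` -/
def OCG (G : Type) {X : Type} [Group G] [MulAction G X] (R : Set X) : Prop :=
  ∀ g h : G, OddG g → OddG h → (∀ x : X, g • x ∈ R ↔ x ∈ R) →
    (∀ x : X, h • x ∈ R ↔ x ∈ R) → ∀ x : X, g • h • x = h • g • x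

theorem OCG.compl {G X : Type} [Group G] [MulAction G X] {R : Set X} (h : OCG G R) :
    OCG G Rᶜ := by
  intro f g hfo hgo hfR hgR
  refine h f g hfo hgo (fun v => ?_) (fun v => ?_)
  · have := hfR v
    simp only [Set.mem_compl_iff] at this
    exact not_iff_not.1 this
  · have := hgR v
    simp only [Set.mem_compl_iff] at this
    exact not_iff_not.1 this

def GoodG (G X : Type) [Group G] [MulAction G X] : Prop :=
  ∃ R : Fin 3 → Set X, Function.Injective (fun i => (R i).ncard) ∧ ∀ i, OCG G (R i)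

theorem oddP_toPerm {G X : Type} [Group G] [MulAction G X] {g : G} (hg : OddG g) :
    OddP (toPermHom G X g) := by
  obtain ⟨n, hn, hgn⟩ := hg
  exact ⟨n, hn, by rw [← map_pow, hgn, map_one]⟩

theorem ocg_small {G X : Type} [Group G] [MulAction G X] [Finite X] (R : Set X)
    (h1 : R.ncard ≤ 3) (h2 : Rᶜ.ncard ≤ 3) : OCG G R := by
  intro g h hg hh hgR hhR x
  by_cases hx : x ∈ R
  · exact comm_of_small (T := R) (by rwa [Nat.card_coe_set_eq]) (toPermHom G X g)
      (toPermHom G X h) (oddP_toPerm hg) (oddP_toPerm hh) hgR hhR x hx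
  · exact comm_of_small (T := Rᶜ) (by rwa [Nat.card_coe_set_eq]) (toPermHom G X g)
      (toPermHom G X h) (oddP_toPerm hg) (oddP_toPerm hh) (fun x => not_congr (hgR x))
      (fun x => not_congr (hhR x)) x hx

theorem good_small {G X : Type} [Group G] [MulAction G X] [Finite X] (h2 : 2 ≤ Nat.card X)
    (h4 : Nat.card X ≤ 4) : GoodG G X := by
  obtain ⟨a, ha⟩ : ∃ a : ℕ, a + 2 ≤ Nat.card X ∧ a + 2 ≤ 3 ∧ Nat.card X ≤ a + 3 := by
    by_cases h : Nat.card X = 4
    · exact ⟨1, by omega⟩
    · exact ⟨0, by omega⟩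
  let e : X ≃ Fin (Nat.card X) := Finite.equivFin X
  let R : Fin 3 → Set X := fun i => {x | (e x).val < a + i.val}
  have hR : ∀ i, (R i).ncard = a + i.val := by
    intro i
    have hi := i.isLt
    have h1 : Nat.card (R i) = Nat.card {k : Fin (Nat.card X) // k.val < a + i.val} :=
      Nat.card_congr (e.subtypeEquiv (fun x => Iff.rfl))
    rw [← Nat.card_coe_set_eq, h1]
    have e2 : {k : Fin (Nat.card X) // k.val < a + i.val} ≃ Fin (a + i.val) :=
      { toFun := fun k => ⟨k.1.val, k.2⟩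
        invFun := fun k => ⟨⟨k.val, by omega⟩, k.isLt⟩
        left_inv := fun k => rfl
        right_inv := fun k => rfl }
    rw [Nat.card_congr e2, Nat.card_fin]
  refine ⟨R, ?_, ?_⟩
  · intro i j hij
    simp only [hR] at hij
    apply Fin.ext
    omega
  · intro i
    have h1 := Set.ncard_add_ncard_compl (R i)
    have hi := i.isLt
    rw [hR] at h1
    apply ocg_small
    · rw [hR]; omega
    · omega

/-- a nontrivial abelian normal subgroup of prime exponent in a soluble group -/
theorem abn {H : Type} [Group H] [Finite H] [Group.IsSolvable H]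
    (hH : (⊤ : Subgroup H) ≠ ⊥) : ∃ (r : ℕ) (N : Subgroup H), r.Prime ∧ N.Normal ∧
      (∃ a ∈ N, a ≠ 1) ∧ (∀ a ∈ N, ∀ b ∈ N, a * b = b * a) ∧ ∀ a ∈ N, a ^ r = 1 := by
  classical
  obtain ⟨n, hn⟩ := (Group.isSolvable_def H).1 inferInstance
  have hex : ∃ n, derivedSeries H n = ⊥ := ⟨n, hn⟩
  set m := Nat.find hex with hm
  have hm1 : derivedSeries H m = ⊥ := Nat.find_spec hex
  have hm0 : m ≠ 0 := by
    intro h
    rw [h, derivedSeries_zero] at hm1
    exact hH hm1
  obtain ⟨l, hl⟩ := Nat.exists_eq_succ_of_ne_zero hm0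
  have hA : derivedSeries H l ≠ ⊥ := Nat.find_min hex (by omega)
  set A := derivedSeries H l with hAdef
  have hAn : A.Normal := derivedSeries_normal H l
  have hAc : ∀ a ∈ A, ∀ b ∈ A, a * b = b * a := by
    intro a ha b hb
    have h1 : ⁅a, b⁆ ∈ derivedSeries H m := by
      rw [hl]
      show ⁅a, b⁆ ∈ ⁅derivedSeries H l, derivedSeries H l⁆
      exact Subgroup.commutator_mem_commutator ha hb
    rw [hm1, Subgroup.mem_bot] at h1
    exact commutatorElement_eq_one_iff_mul_comm.1 h1
  have hAcard : Nat.card A ≠ 1 := fun h => hA (Subgroup.card_eq_one.1 h)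
  obtain ⟨p, hp, hpA⟩ := Nat.exists_prime_and_dvd hAcard
  have : Fact p.Prime := ⟨hp⟩
  let M : Subgroup H :=
    { carrier := {a | a ∈ A ∧ a ^ p = 1}
      mul_mem' := by
        rintro a b ⟨ha, ha'⟩ ⟨hb, hb'⟩
        refine ⟨A.mul_mem ha hb, ?_⟩
        have hc : Commute a b := hAc a ha b hb
        rw [hc.mul_pow, ha', hb', one_mul]
      one_mem' := ⟨A.one_mem, one_pow _⟩
      inv_mem' := by
        rintro a ⟨ha, ha'⟩
        exact ⟨A.inv_mem ha, by rw [inv_pow, ha', inv_one]⟩ }
  have hMn : M.Normal := by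
    constructor
    rintro a ⟨ha, ha'⟩ g
    refine ⟨hAn.conj_mem a ha g, ?_⟩
    rw [conj_pow, ha', mul_one, mul_inv_cancel]
  have hMc : ∀ a ∈ M, ∀ b ∈ M, a * b = b * a := fun a ha b hb => hAc a ha.1 b hb.1
  obtain ⟨a0, ha0⟩ := exists_prime_orderOf_dvd_card' p hpA
  have ha0M : (a0 : H) ∈ M := by
    refine ⟨a0.2, ?_⟩
    have h1 : a0 ^ p = 1 := by
      rw [← ha0]
      exact pow_orderOf_eq_one a0
    exact congrArg Subtype.val h1
  have ha0ne : (a0 : H) ≠ 1 := by
    intro h
    have h1 : a0 = 1 := Subtype.ext h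
    rw [h1, orderOf_one] at ha0
    exact hp.one_lt.ne ha0
  exact ⟨p, M, hp, hMn, ⟨a0, ha0M, ha0ne⟩, hMc, fun a ha => ha.2⟩

/-- the regular normal subgroup of a primitive soluble group -/
theorem regular {G X : Type} [Group G] [Finite G] [Group.IsSolvable G] [MulAction G X]
    [FaithfulSMul G X] [IsPreprimitive G X] [Finite X] [Nontrivial X] :
    ∃ (p : ℕ) (M : Subgroup G), p.Prime ∧ M.Normal ∧ (∃ a ∈ M, a ≠ 1) ∧
      (∀ a ∈ M, ∀ b ∈ M, a * b = b * a) ∧ (∀ a ∈ M, a ^ p = 1) ∧
      (∀ x y : X, ∃ a ∈ M, a • x = y) ∧ (∀ a ∈ M, ∀ x : X, a • x = x → a = 1) := by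
  have hG : (⊤ : Subgroup G) ≠ ⊥ := by
    intro h
    obtain ⟨x, y, hxy⟩ := exists_pair_ne X
    obtain ⟨g, hg⟩ := exists_smul_eq G x y
    have h1 : g ∈ (⊥ : Subgroup G) := h ▸ Subgroup.mem_top g
    rw [Subgroup.mem_bot] at h1
    rw [h1, one_smul] at hg
    exact hxy hg
  obtain ⟨p, M, hp, hMn, ⟨a0, ha0M, ha0ne⟩, hMc, hMp⟩ := abn hG
  have hMfix : fixedPoints M X ≠ Set.univ := by
    intro h
    apply ha0ne
    apply eq_of_smul_eq_smul (α := X)
    intro x
    have h1 : x ∈ fixedPoints M X := by rw [h]; exact Set.mem_univ x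
    rw [one_smul]
    exact h1 ⟨a0, ha0M⟩
  have : IsPretransitive M X := IsQuasiPreprimitive.isPretransitive_of_normal hMfix
  refine ⟨p, M, hp, hMn, ⟨a0, ha0M, ha0ne⟩, hMc, hMp, ?_, ?_⟩
  · intro x y
    obtain ⟨b, hb⟩ := exists_smul_eq M x y
    exact ⟨b, b.2, hb⟩
  · intro a ha x hx
    apply eq_of_smul_eq_smul (α := X)
    intro y
    obtain ⟨b, hb⟩ := exists_smul_eq M x y
    have hb' : (b : G) • x = y := hb
    rw [one_smul, ← hb', ← mul_smul, hMc a ha b b.2, mul_smul, hx]

/-- soluble primitive groups of degree eight -/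
theorem eight {G X : Type} [Group G] [Finite G] [Group.IsSolvable G] [MulAction G X]
    [FaithfulSMul G X] [IsPreprimitive G X] [Finite X] (hX : Nat.card X = 8)
    (M : Subgroup G) (hMn : M.Normal) (hMc : ∀ a ∈ M, ∀ b ∈ M, a * b = b * a)
    (hMt : ∀ x y : X, ∃ a ∈ M, a • x = y) (hreg : ∀ a ∈ M, ∀ x : X, a • x = x → a = 1)
    (x : X) :
    (∀ y z : X, y ≠ x → z ≠ y → z ≠ x → ∀ g : G, g • x = x → g • y = y → g • z = z → g = 1) ∧
    (∀ y : X, y ≠ x → ∀ g h : G, g • x = x → g • y = y → h • x = x → h • y = y →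
      g * h = h * g) := by
  classical
  by_cases hK : (⊤ : Subgroup (stabilizer G x)) = ⊥
  · have h1 : ∀ g : G, g • x = x → g = 1 := by
      intro g hg
      have h2 : (⟨g, hg⟩ : stabilizer G x) ∈ (⊥ : Subgroup (stabilizer G x)) :=
        hK ▸ Subgroup.mem_top _
      rw [Subgroup.mem_bot] at h2
      exact congrArg Subtype.val h2
    refine ⟨fun y z _ _ _ g hg _ _ => h1 g hg, fun y _ g h hg _ hh _ => ?_⟩
    rw [h1 g hg, h1 h hh]
  · obtain ⟨r, N', hr, hNn', ⟨n0, hn0, hn0'⟩, hNc', hNr'⟩ := abn hK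
    have : Fact r.Prime := ⟨hr⟩
    set N : Subgroup G := N'.map (stabilizer G x).subtype with hN
    have hNx : ∀ n ∈ N, n • x = x := by
      rintro _ ⟨⟨n, hn⟩, -, rfl⟩
      exact hn
    have hNconj : ∀ k : G, k • x = x → ∀ n ∈ N, k * n * k⁻¹ ∈ N := by
      rintro k hk _ ⟨n, hn, rfl⟩
      exact ⟨(⟨k, hk⟩ : stabilizer G x) * n * (⟨k, hk⟩ : stabilizer G x)⁻¹,
        hNn'.conj_mem n hn _, rfl⟩
    have hNc : ∀ a ∈ N, ∀ b ∈ N, a * b = b * a := by
      rintro _ ⟨a, ha, rfl⟩ _ ⟨b, hb, rfl⟩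
      exact congrArg Subtype.val (hNc' a ha b hb)
    have hNr : ∀ a ∈ N, a ^ r = 1 := by
      rintro _ ⟨a, ha, rfl⟩
      exact congrArg Subtype.val (hNr' a ha)
    have hu0 : (n0 : G) ∈ N := ⟨n0, hn0, rfl⟩
    have hu0' : (n0 : G) ≠ 1 := fun h => hn0' (Subtype.ext h)
    -- fixed points of `N`
    have hfix : ∀ y : X, (∀ n ∈ N, n • y = y) → y = x := by
      intro y hy
      by_contra hne
      obtain ⟨m, hm, hmx⟩ := hMt x y
      let L : Subgroup G := M ⊓ Subgroup.centralizer (N : Set G)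
      have hmL : m ∈ L := by
        show m ∈ M ⊓ Subgroup.centralizer (N : Set G)
        rw [Subgroup.mem_inf, Subgroup.mem_centralizer_iff]
        refine ⟨hm, ?_⟩
        intro n hn
        have h1 : m⁻¹ * (n * m * n⁻¹) = 1 := by
          apply hreg _ (M.mul_mem (M.inv_mem hm) (hMn.conj_mem m hm n)) x
          rw [mul_smul, mul_smul, mul_smul, inv_smul_eq_iff.2 (hNx n hn).symm, hmx, hy n hn,
            ← hmx, inv_smul_smul]
        have h2 : n * m * n⁻¹ = m := (inv_mul_eq_one.1 h1).symm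
        rw [mul_inv_eq_iff_eq_mul] at h2
        exact h2
      have hLn : L.Normal := by
        constructor
        rintro l ⟨hl, hl'⟩ g
        obtain ⟨m', hm', hm'x⟩ := hMt x (g • x)
        have hkx : (m'⁻¹ * g) • x = x := by
          rw [mul_smul, ← hm'x, inv_smul_smul]
        set k := m'⁻¹ * g with hk
        have hkl : k * l * k⁻¹ ∈ M := hMn.conj_mem l hl k
        have h1 : g * l * g⁻¹ = k * l * k⁻¹ := by
          have h2 : g = m' * k := by rw [hk]; group
          have h3 := hMc m' hm' _ hkl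
          calc g * l * g⁻¹ = m' * (k * l * k⁻¹) * m'⁻¹ := by rw [h2]; group
            _ = k * l * k⁻¹ := by rw [h3]; group
        rw [h1]
        show k * l * k⁻¹ ∈ M ⊓ Subgroup.centralizer (N : Set G)
        rw [Subgroup.mem_inf, Subgroup.mem_centralizer_iff]
        refine ⟨hkl, ?_⟩
        intro n hn
        have h4 : k⁻¹ * n * k ∈ N := by
          have := hNconj k⁻¹ (inv_smul_eq_iff.2 hkx.symm) n hn
          rwa [inv_inv] at this
        have h5 := Subgroup.mem_centralizer_iff.1 hl' _ h4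
        calc n * (k * l * k⁻¹) = k * ((k⁻¹ * n * k) * l) * k⁻¹ := by group
          _ = k * (l * (k⁻¹ * n * k)) * k⁻¹ := by rw [h5]
          _ = (k * l * k⁻¹) * n := by group
      have hLfix : fixedPoints L X ≠ Set.univ := by
        intro h
        have h1 : x ∈ fixedPoints L X := by rw [h]; exact Set.mem_univ x
        have h2 := h1 ⟨m, hmL⟩
        exact hne (hmx.symm.trans h2)
      have : IsPretransitive L X := IsQuasiPreprimitive.isPretransitive_of_normal hLfix
      apply hu0'
      apply eq_of_smul_eq_smul (α := X)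
      intro z
      obtain ⟨l, hl⟩ := exists_smul_eq L x z
      have hl' : (l : G) • x = z := hl
      have h5 := Subgroup.mem_centralizer_iff.1 l.2.2 _ hu0
      rw [one_smul, ← hl', ← mul_smul, h5, mul_smul, hNx _ hu0]
    -- the prime is seven
    have hPG : IsPGroup r N := by
      intro n
      exact ⟨1, by rw [pow_one]; exact Subtype.ext (hNr n n.2)⟩
    have hr7 : r = 7 := by
      have h1 := hPG.card_modEq_card_fixedPoints X
      have h2 : fixedPoints N X = {x} := by
        ext y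
        rw [Set.mem_singleton_iff]
        constructor
        · intro hy
          exact hfix y (fun n hn => hy ⟨n, hn⟩)
        · rintro rfl n
          exact hNx n n.2
      rw [hX, h2, Nat.card_unique] at h1
      have h3 : r ∣ 8 - 1 := (Nat.modEq_iff_dvd' (by norm_num)).1 h1.symm
      exact (Nat.prime_dvd_prime_iff_eq hr (by norm_num)).1 h3
    subst hr7
    have hcx : (({x} : Set X)ᶜ).ncard = 7 := by
      have := Set.ncard_add_ncard_compl ({x} : Set X)
      rw [Set.ncard_singleton, hX] at this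
      omega
    have htr : ∀ y z : X, y ≠ x → z ≠ x → ∃ n ∈ N, n • y = z := by
      intro y z hy hz
      have h1 : orbit N y ⊆ ({x} : Set X)ᶜ := by
        rintro _ ⟨n, rfl⟩
        intro h
        have h2 : (n : G) • y = x := h
        apply hy
        rw [← inv_smul_eq_iff.2 (hNx n n.2).symm, ← h2, inv_smul_smul]
      obtain ⟨k, hk⟩ := hPG.card_orbit y
      have hk0 : k ≠ 0 := by
        rintro rfl
        apply hy
        apply hfix
        intro n hn
        rw [pow_zero, Nat.card_eq_one_iff_unique] at hk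
        have := hk.1
        have h3 : (⟨(⟨n, hn⟩ : N) • y, mem_orbit _ _⟩ : orbit N y) = ⟨y, mem_orbit_self y⟩ :=
          Subsingleton.elim _ _
        exact congrArg Subtype.val h3
      have h4 : 7 ≤ (orbit N y).ncard := by
        rw [← Nat.card_coe_set_eq, hk]
        calc 7 = 7 ^ 1 := rfl
          _ ≤ 7 ^ k := Nat.pow_le_pow_right (by norm_num) (Nat.one_le_iff_ne_zero.2 hk0)
      have h5 := Set.eq_of_subset_of_ncard_le h1 (by rw [hcx]; exact h4)
      have h6 : z ∈ orbit N y := by rw [h5]; exact hz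
      obtain ⟨n, hn⟩ := h6
      exact ⟨n, n.2, hn⟩
    have hregN : ∀ n ∈ N, ∀ y : X, y ≠ x → n • y = y → n = 1 := by
      intro n hn y hy hny
      apply eq_of_smul_eq_smul (α := X)
      intro w
      rw [one_smul]
      by_cases hw : w = x
      · rw [hw, hNx n hn]
      · obtain ⟨n', hn', rfl⟩ := htr y w hy hw
        rw [← mul_smul, hNc n hn n' hn', mul_smul, hny]
    have hcardN : ∀ y : X, y ≠ x → Nat.card N = 7 := by
      intro y hy
      rw [← hcx, ← Nat.card_coe_set_eq]
      have hmem : ∀ n : N, (n : G) • y ∈ ({x} : Set X)ᶜ := by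
        intro n h
        have h2 : (n : G) • y = x := h
        apply hy
        rw [← inv_smul_eq_iff.2 (hNx n n.2).symm, ← h2, inv_smul_smul]
      apply Nat.card_congr
      refine Equiv.ofBijective (fun n : N => (⟨(n : G) • y, hmem n⟩ : (({x} : Set X)ᶜ : Set X)))
        ⟨?_, ?_⟩
      · intro a b hab
        have h1 : (a : G) • y = (b : G) • y := congrArg Subtype.val hab
        have h2 := hregN _ (N.mul_mem (N.inv_mem b.2) a.2) y hy (by
          rw [mul_smul, h1, inv_smul_smul])
        exact Subtype.ext (inv_mul_eq_one.1 h2).symm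
      · rintro ⟨z, hz⟩
        obtain ⟨n, hn, hnz⟩ := htr y z hy hz
        exact ⟨⟨n, hn⟩, Subtype.ext hnz⟩
    have hgen : ∀ y : X, y ≠ x → ∀ u ∈ N, u ≠ 1 → ∀ n ∈ N, ∃ i : ℤ, u ^ i = n := by
      intro y hy u hu hu1 n hn
      have : Fact (Nat.Prime 7) := ⟨by norm_num⟩
      have h1 := mem_zpowers_of_prime_card (hcardN y hy) (g := (⟨u, hu⟩ : N))
        (g' := (⟨n, hn⟩ : N)) (fun h => hu1 (congrArg Subtype.val h))
      obtain ⟨i, hi⟩ := h1
      exact ⟨i, congrArg Subtype.val hi⟩
    have hC : ∀ g : G, g • x = x → ∀ y : X, y ≠ x → g • y = y → ∀ u ∈ N, u ≠ 1 →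
        g * u = u * g → g = 1 := by
      intro g hgx y hy hgy u hu hu1 hgu
      apply eq_of_smul_eq_smul (α := X)
      intro w
      rw [one_smul]
      by_cases hw : w = x
      · rw [hw, hgx]
      · obtain ⟨n, hn, rfl⟩ := htr y w hy hw
        obtain ⟨i, rfl⟩ := hgen y hy u hu hu1 n hn
        have h1 : Commute g (u ^ i) := Commute.zpow_right hgu i
        rw [← mul_smul, h1.eq, mul_smul, hgy]
    constructor
    · intro y z hy hzy hz g hgx hgy hgz
      obtain ⟨u, hu, huy⟩ := htr y z hy hz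
      have hu1 : u ≠ 1 := by
        rintro rfl
        rw [one_smul] at huy
        exact hzy huy.symm
      apply hC g hgx y hy hgy u hu hu1
      have h1 : u⁻¹ * (g * u * g⁻¹) = 1 := by
        apply hregN _ (N.mul_mem (N.inv_mem hu) (hNconj g hgx u hu)) y hy
        rw [mul_smul, mul_smul, mul_smul, inv_smul_eq_iff.2 hgy.symm, huy, hgz, ← huy,
          inv_smul_smul]
      have h2 : g * u * g⁻¹ = u := (inv_mul_eq_one.1 h1).symm
      rw [mul_inv_eq_iff_eq_mul] at h2
      exact h2
    · intro y hy g h hgx hgy hhx hhy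
      obtain ⟨i, hi⟩ := hgen y hy _ hu0 hu0' _ (hNconj g hgx _ hu0)
      obtain ⟨j, hj⟩ := hgen y hy _ hu0 hu0' _ (hNconj h hhx _ hu0)
      set u : G := (n0 : G) with hu
      have e1 : (g * h) * u * (g * h)⁻¹ = u ^ (i * j) := by
        calc (g * h) * u * (g * h)⁻¹ = g * (h * u * h⁻¹) * g⁻¹ := by group
          _ = g * u ^ j * g⁻¹ := by rw [hj]
          _ = (g * u * g⁻¹) ^ j := by rw [conj_zpow]
          _ = u ^ (i * j) := by rw [← hi, zpow_mul]
      have e2 : (h * g) * u * (h * g)⁻¹ = u ^ (i * j) := by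
        calc (h * g) * u * (h * g)⁻¹ = h * (g * u * g⁻¹) * h⁻¹ := by group
          _ = h * u ^ i * h⁻¹ := by rw [hi]
          _ = (h * u * h⁻¹) ^ i := by rw [conj_zpow]
          _ = u ^ (i * j) := by rw [← hj, ← zpow_mul, mul_comm]
      have h3 : (h * g)⁻¹ * (g * h) = 1 := by
        apply hC _ _ y hy _ u hu0 hu0'
        · have h4 : (g * h) * u * (g * h)⁻¹ = (h * g) * u * (h * g)⁻¹ := e1.trans e2.symm
          calc (h * g)⁻¹ * (g * h) * u = (h * g)⁻¹ * ((g * h) * u * (g * h)⁻¹) * (g * h) := by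
                group
            _ = (h * g)⁻¹ * ((h * g) * u * (h * g)⁻¹) * (g * h) := by rw [h4]
            _ = u * ((h * g)⁻¹ * (g * h)) := by group
        · rw [mul_smul, mul_smul, hhx, hgx, inv_smul_eq_iff, mul_smul, hgx, hhx]
        · rw [mul_smul, mul_smul, hhy, hgy, inv_smul_eq_iff, mul_smul, hgy, hhy]
      exact (inv_mul_eq_one.1 h3).symm

theorem good_eight {G X : Type} [Group G] [Finite G] [Group.IsSolvable G] [MulAction G X]
    [FaithfulSMul G X] [IsPreprimitive G X] [Finite X] (hX : Nat.card X = 8)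
    (M : Subgroup G) (hMn : M.Normal) (hMc : ∀ a ∈ M, ∀ b ∈ M, a * b = b * a)
    (hMt : ∀ x y : X, ∃ a ∈ M, a • x = y) (hreg : ∀ a ∈ M, ∀ x : X, a • x = x → a = 1) :
    GoodG G X := by
  let e : X ≃ Fin 8 := Finite.equivFinOfCardEq hX
  set x := e.symm 0 with hx
  set y := e.symm 1 with hy
  set z := e.symm 2 with hz
  have hyx : y ≠ x := fun h => absurd (e.symm.injective h) (by decide)
  have hzy : z ≠ y := fun h => absurd (e.symm.injective h) (by decide)
  have hzx : z ≠ x := fun h => absurd (e.symm.injective h) (by decide)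
  obtain ⟨h1, h2⟩ := eight hX M hMn hMc hMt hreg x
  have n2 : ({x, y} : Set X).ncard = 2 := Set.ncard_pair hyx.symm
  have n6 : (({x, y} : Set X)ᶜ).ncard = 6 := by
    have := Set.ncard_add_ncard_compl ({x, y} : Set X)
    rw [n2, hX] at this
    omega
  have n3 : ({z, x, y} : Set X).ncard = 3 := by
    rw [Set.ncard_insert_of_notMem, n2]
    rintro (h | h)
    · exact hzx h
    · exact hzy h
  have o2 : OCG G ({x, y} : Set X) := by
    intro g h hg hh hgR hhR w
    obtain ⟨a1, a2⟩ := fix_pair (oddP_toPerm hg) hyx.symm hgR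
    obtain ⟨b1, b2⟩ := fix_pair (oddP_toPerm hh) hyx.symm hhR
    have := h2 y hyx g h a1 a2 b1 b2
    rw [← mul_smul, this, mul_smul]
  have o3 : OCG G ({z, x, y} : Set X) := by
    intro g h hg hh hgR hhR w
    have h3 := comm_of_small (T := ({z, x, y} : Set X)) (by
      rw [Nat.card_coe_set_eq, n3]) (toPermHom G X g) (toPermHom G X h)
      (oddP_toPerm hg) (oddP_toPerm hh) hgR hhR
    have h4 : ∀ w ∈ ({z, x, y} : Set X), ((h * g)⁻¹ * (g * h)) • w = w := by
      intro w hw
      have h5 : g • h • w = h • g • w := h3 w hw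
      rw [mul_smul, mul_smul, h5, ← mul_smul h g, inv_smul_smul]
    have h5 : (h * g)⁻¹ * (g * h) = 1 :=
      h1 y z hyx hzy hzx _ (h4 x (by simp)) (h4 y (by simp)) (h4 z (by simp))
    have h6 : g * h = h * g := (inv_mul_eq_one.1 h5).symm
    rw [← mul_smul, h6, mul_smul]
  refine ⟨![{x, y}, {x, y}ᶜ, {z, x, y}], ?_, ?_⟩
  · intro i j hij
    fin_cases i <;> fin_cases j <;> first | rfl | (exfalso; revert hij; simp [n2, n6, n3])
  · intro i
    fin_cases i
    · exact o2
    · exact o2.compl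
    · exact o3


/-- primitive soluble groups -/
theorem prim {G X : Type} [Group G] [Finite G] [Group.IsSolvable G] [MulAction G X]
    [FaithfulSMul G X] [IsPreprimitive G X] [Finite X] [Nontrivial X] : GoodG G X := by
  classical
  by_cases h4 : Nat.card X ≤ 4
  · exact good_small (Finite.one_lt_card) h4
  obtain ⟨p, M, hp, hMn, ⟨a0, ha0M, ha0ne⟩, hMc, hMp, hMt, hreg⟩ := regular (G := G) (X := X)
  by_cases h8 : Nat.card X = 8
  · exact good_eight h8 M hMn hMc hMt hreg
  have : Fact p.Prime := ⟨hp⟩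
  obtain ⟨x0⟩ : Nonempty X := inferInstance
  let ev : M → X := fun a => (a : G) • x0
  have hev : Function.Bijective ev := by
    constructor
    · intro a b hab
      have h1 : ((b : G)⁻¹ * a) • x0 = x0 := by
        rw [mul_smul]
        have h2 : (a : G) • x0 = (b : G) • x0 := hab
        rw [h2, inv_smul_smul]
      have h3 := hreg _ (M.mul_mem (M.inv_mem b.2) a.2) x0 h1
      exact Subtype.ext (inv_mul_eq_one.1 h3).symm
    · intro x
      obtain ⟨b, hb, hbx⟩ := hMt x0 x
      exact ⟨⟨b, hb⟩, hbx⟩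
  let E : M ≃ X := Equiv.ofBijective ev hev
  letI : CommGroup M := { (inferInstance : Group M) with
    mul_comm := fun a b => Subtype.ext (hMc a a.2 b b.2) }
  have hV : ∀ v : Additive M, p • v = 0 := by
    intro v
    have h1 : (Additive.toMul v) ^ p = 1 := Subtype.ext (hMp _ (Additive.toMul v).2)
    exact congrArg Additive.ofMul h1
  let e : X ≃ Additive M := E.symm.trans Additive.ofMul
  have hcard : Nat.card (Additive M) = Nat.card X := (Nat.card_congr e).symm
  obtain ⟨R, hR1, hR2⟩ : Good3 (Additive M) :=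
    @lin (Additive M) _ _ p _ (AddCommGroup.zmodModule hV) (by rw [hcard]; omega)
      (by rw [hcard]; exact h8)
  refine ⟨fun i => e ⁻¹' R i, ?_, ?_⟩
  · intro i j hij
    have e1 : ∀ i, (e ⁻¹' R i).ncard = (R i).ncard := by
      intro i
      rw [← Nat.card_coe_set_eq, ← Nat.card_coe_set_eq]
      exact Nat.card_congr (e.subtypeEquiv (fun v => Iff.rfl))
    simp only [e1] at hij
    exact hR1 hij
  · intro i
    have key : ∀ g : G, Aff (e.permCongrHom (toPermHom G X g)) := by
      intro g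
      set m0 : M := E.symm (g • x0) with hm0
      have hm0' : (m0 : G) • x0 = g • x0 := E.apply_symm_apply (g • x0)
      let ψ : M ≃* M := MulAut.conjNormal g
      have hψ : ∀ a : M, ((ψ a : M) : G) = g * a * g⁻¹ := fun a => MulAut.conjNormal_apply g a
      let φ : Additive M ≃+ Additive M := MulEquiv.toAdditive ψ
      have hact : ∀ x : X, E.symm (g • x) = m0 * ψ (E.symm x) := by
        intro x
        apply E.injective
        rw [E.apply_symm_apply]
        show g • x = ((m0 * ψ (E.symm x) : M) : G) • x0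
        rw [mul_comm, Subgroup.coe_mul, hψ, mul_smul, hm0', mul_smul, mul_smul, inv_smul_smul]
        congr 1
        exact (E.apply_symm_apply x).symm
      have hform : ∀ v : Additive M, e.permCongrHom (toPermHom G X g) v =
          Additive.ofMul m0 + φ v := by
        intro v
        show Additive.ofMul (E.symm (g • (E (Additive.toMul v)))) = _
        rw [hact, E.symm_apply_apply]
        rfl
      intro x y z
      rw [hform, hform, hform, hform, map_add, map_sub]
      abel
    intro g h hg hh hgR hhR x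
    have o1 : ∀ g : G, OddG g → OddP (e.permCongrHom (toPermHom G X g)) := by
      rintro g ⟨n, hn, hgn⟩
      exact ⟨n, hn, by rw [← map_pow, ← map_pow, hgn, map_one, map_one]⟩
    have r1 : ∀ g : G, (∀ x, g • x ∈ e ⁻¹' R i ↔ x ∈ e ⁻¹' R i) →
        ∀ v, e.permCongrHom (toPermHom G X g) v ∈ R i ↔ v ∈ R i := by
      intro g hgR v
      have h1 := hgR (e.symm v)
      simp only [Set.mem_preimage, e.apply_symm_apply] at h1
      exact h1
    have h1 := hR2 i _ _ (key g) (key h) (o1 g hg) (o1 h hh) (r1 g hgR) (r1 h hhR) (e x)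
    have e1 : ∀ (g : G) v, e.permCongrHom (toPermHom G X g) v = e (g • (e.symm v)) :=
      fun g v => rfl
    rw [e1, e1, e1, e1, e.symm_apply_apply, e.symm_apply_apply, e.symm_apply_apply] at h1
    exact e.injective h1

/-- a maximal subgroup of a soluble group -/
theorem prim_quot {S : Type} [Group S] [Finite S] [Group.IsSolvable S] (U : Subgroup S)
    (hU : IsCoatom U) : GoodG S (S ⧸ U) := by
  have : Nontrivial (S ⧸ U) := by
    rw [← not_subsingleton_iff_nontrivial]
    intro h
    apply hU.1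
    rw [← Subgroup.index_eq_one]
    exact Nat.card_eq_one_iff_unique.2 ⟨h, ⟨((1 : S) : S ⧸ U)⟩⟩
  have h1 : IsPreprimitive S (S ⧸ U) := by
    rw [← isCoatom_stabilizer_iff_preprimitive S ((1 : S) : S ⧸ U), stabilizer_quotient]
    exact hU
  let f := toPermHom S (S ⧸ U)
  have : Group.IsSolvable f.range := Group.isSolvable_of_surjective f.rangeRestrict_surjective
  have : FaithfulSMul f.range (S ⧸ U) := by
    constructor
    rintro ⟨a, ha⟩ ⟨b, hb⟩ h
    exact Subtype.ext (Equiv.ext h)
  let F : (S ⧸ U) →ₑ[f.rangeRestrict] (S ⧸ U) :=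
    { toFun := id
      map_smul' := fun g x => rfl }
  have : IsPreprimitive f.range (S ⧸ U) := IsPreprimitive.of_surjective (f := F)
    Function.surjective_id
  obtain ⟨R, hR1, hR2⟩ := prim (G := f.range) (X := S ⧸ U)
  refine ⟨R, hR1, fun i g h hg hh hgR hhR x => ?_⟩
  have o1 : ∀ g : S, OddG g → OddG (f.rangeRestrict g) := by
    rintro g ⟨n, hn, hgn⟩
    exact ⟨n, hn, by rw [← map_pow, hgn, map_one]⟩
  exact hR2 i (f.rangeRestrict g) (f.rangeRestrict h) (o1 g hg) (o1 h hh) hgR hhR x

end Pool.Agent.R721.TC
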